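import Mathlib

/-! The permanent as a multilinear function of the rows. -/

namespace Pool.Agent.Helper20.MR

open Matrix

section

variable {N : Type*} [Fintype N] [DecidableEq N] {R : Type*} [CommRing R]

/-- The permanent, as a multilinear function of the rows. -/
noncomputable def permMl (N R : Type*) [Fintype N] [DecidableEq N] [CommRing R] :
    MultilinearMap R (fun _ : N => N → R) R :=
  ∑ σ : Equiv.Perm N, (MultilinearMap.mkPiAlgebra R N R).compLinearMap
    (fun i => LinearMap.proj (σ i))

theorem permMl_apply (M : N → N → R) :
    permMl N R M = ∑ σ : Equiv.Perm N, ∏ i, M i (σ i) := by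
  simp [permMl]

theorem permanent_eq (M : Matrix N N R) : M.permanent = permMl N R M := by
  rw [permMl_apply, ← Matrix.permanent_transpose]
  rfl

theorem permMl_map {S : Type*} [CommRing S] (φ : R →+* S) (M : N → N → R) :
    φ (permMl N R M) = permMl N S (fun i a => φ (M i a)) := by
  simp [permMl_apply]

/-- Expansion with two square-zero directions. -/
theorem permMl_expand (x : N → N → R) (i j : N) (hij : i ≠ j) (c d : N → R) (e₁ e₂ : R) :
    permMl N R (fun k a => x k a + e₁ * (Pi.single i c : N → N → R) k a +
      e₂ * (Pi.single j d : N → N → R) k a) =
    permMl N R x + e₁ * permMl N R (Function.update x i c) +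
      e₂ * permMl N R (Function.update x j d) +
      e₁ * e₂ * permMl N R (Function.update (Function.update x i c) j d) := by
  have h1 : (fun k a => x k a + e₁ * (Pi.single i c : N → N → R) k a +
      e₂ * (Pi.single j d : N → N → R) k a) =
      Function.update (Function.update x i (x i + e₁ • c)) j (x j + e₂ • d) := by
    funext k a
    by_cases hkj : k = j
    · subst hkj
      simp [Pi.single_eq_of_ne hij.symm]
    · rw [Function.update_of_ne hkj]
      by_cases hki : k = i
      · subst hki
        simp [hkj]
      · rw [Function.update_of_ne hki]
        simp [hki, hkj]
  rw [h1]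
  rw [(permMl N R).map_update_add, (permMl N R).map_update_smul]
  rw [Function.update_comm hij, Function.update_comm hij]
  rw [(permMl N R).map_update_add, (permMl N R).map_update_smul,
    (permMl N R).map_update_add, (permMl N R).map_update_smul]
  rw [Function.update_eq_self]
  have h2 : Function.update (Function.update x j d) i (x i) = Function.update x j d := by
    conv_lhs => rw [show x i = Function.update x j d i by rw [Function.update_of_ne hij]]
    rw [Function.update_eq_self]
  rw [Function.update_eq_self, h2, Function.update_comm hij.symm]
  simp only [smul_eq_mul]
  ring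

end

end Pool.Agent.Helper20.MR
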