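import Mathlib
import Pool.Agent.Helper20.MR.Perm

/-! Counting permutations with two or three prescribed values; permanents of matrices with
two or three rows different from the all-ones row. -/

namespace Pool.Agent.Helper20.MR

open Matrix

variable {N : Type*} [Fintype N] [DecidableEq N]

theorem exists_perm2 (a b a' b' : N) (h : a ≠ b) (h' : a' ≠ b') :
    ∃ τ : Equiv.Perm N, τ a = a' ∧ τ b = b' := by
  let τ₁ := Equiv.swap a a'
  have h1 : τ₁ a = a' := Equiv.swap_apply_left a a'
  have h2 : τ₁ b ≠ a' := by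
    rw [← h1]
    exact fun h3 => h (τ₁.injective h3).symm
  refine ⟨Equiv.swap (τ₁ b) b' * τ₁, ?_, ?_⟩
  · rw [Equiv.Perm.mul_apply, h1]
    exact Equiv.swap_apply_of_ne_of_ne h2.symm h'
  · rw [Equiv.Perm.mul_apply]
    exact Equiv.swap_apply_left _ _

theorem exists_perm3 (a b d a' b' d' : N) (hab : a ≠ b) (had : a ≠ d) (hbd : b ≠ d)
    (hab' : a' ≠ b') (had' : a' ≠ d') (hbd' : b' ≠ d') :
    ∃ τ : Equiv.Perm N, τ a = a' ∧ τ b = b' ∧ τ d = d' := by
  obtain ⟨τ, h1, h2⟩ := exists_perm2 a b a' b' hab hab'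
  have h3 : τ d ≠ a' := by
    rw [← h1]
    exact fun h => had (τ.injective h).symm
  have h4 : τ d ≠ b' := by
    rw [← h2]
    exact fun h => hbd (τ.injective h).symm
  refine ⟨Equiv.swap (τ d) d' * τ, ?_, ?_, ?_⟩
  · rw [Equiv.Perm.mul_apply, h1]
    exact Equiv.swap_apply_of_ne_of_ne h3.symm had'
  · rw [Equiv.Perm.mul_apply, h2]
    exact Equiv.swap_apply_of_ne_of_ne h4.symm hbd'
  · rw [Equiv.Perm.mul_apply]
    exact Equiv.swap_apply_left _ _

/-- Number of permutations with three prescribed values. -/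
def cnt3 (i j k a b d : N) : ℕ :=
  (Finset.univ.filter fun σ : Equiv.Perm N => σ i = a ∧ σ j = b ∧ σ k = d).card

/-- Number of permutations with two prescribed values. -/
def cnt2 (i j a b : N) : ℕ :=
  (Finset.univ.filter fun σ : Equiv.Perm N => σ i = a ∧ σ j = b).card

/-- Number of permutations with one prescribed value. -/
def cnt1 (i a : N) : ℕ := (Finset.univ.filter fun σ : Equiv.Perm N => σ i = a).card

theorem cnt3_eq (i j k a b d i' j' k' a' b' d' : N) (hij : i ≠ j) (hik : i ≠ k) (hjk : j ≠ k)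
    (hab : a ≠ b) (had : a ≠ d) (hbd : b ≠ d) (hij' : i' ≠ j') (hik' : i' ≠ k') (hjk' : j' ≠ k')
    (hab' : a' ≠ b') (had' : a' ≠ d') (hbd' : b' ≠ d') :
    cnt3 i j k a b d = cnt3 i' j' k' a' b' d' := by
  obtain ⟨τ, h1, h2, h3⟩ := exists_perm3 a b d a' b' d' hab had hbd hab' had' hbd'
  obtain ⟨ρ, g1, g2, g3⟩ := exists_perm3 i' j' k' i j k hij' hik' hjk' hij hik hjk
  refine Finset.card_bijective (fun σ => τ * σ * ρ) ?_ ?_
  · exact (Group.mulRight_bijective ρ).comp (Group.mulLeft_bijective τ)
  · intro σ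
    simp only [Finset.mem_filter, Finset.mem_univ, true_and, Equiv.Perm.mul_apply, g1, g2, g3]
    rw [← h1, ← h2, ← h3]
    simp

theorem cnt2_eq (i j a b i' j' a' b' : N) (hij : i ≠ j)
    (hab : a ≠ b) (hij' : i' ≠ j') (hab' : a' ≠ b') :
    cnt2 i j a b = cnt2 i' j' a' b' := by
  obtain ⟨τ, h1, h2⟩ := exists_perm2 a b a' b' hab hab'
  obtain ⟨ρ, g1, g2⟩ := exists_perm2 i' j' i j hij' hij
  refine Finset.card_bijective (fun σ => τ * σ * ρ) ?_ ?_
  · exact (Group.mulRight_bijective ρ).comp (Group.mulLeft_bijective τ)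
  · intro σ
    simp only [Finset.mem_filter, Finset.mem_univ, true_and, Equiv.Perm.mul_apply, g1, g2]
    rw [← h1, ← h2]
    simp

theorem cnt1_eq (i a i' a' : N) : cnt1 i a = cnt1 i' a' := by
  refine Finset.card_bijective (fun σ => Equiv.swap a a' * σ * Equiv.swap i' i) ?_ ?_
  · exact (Group.mulRight_bijective _).comp (Group.mulLeft_bijective _)
  · intro σ
    simp only [Finset.mem_filter, Finset.mem_univ, true_and, Equiv.Perm.mul_apply,
      Equiv.swap_apply_left]
    constructor
    · intro h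
      rw [h, Equiv.swap_apply_left]
    · intro h
      have := congrArg (Equiv.swap a a') h
      simpa using this

theorem cnt3_pos (i j k a b d : N) (hij : i ≠ j) (hik : i ≠ k) (hjk : j ≠ k)
    (hab : a ≠ b) (had : a ≠ d) (hbd : b ≠ d) : 0 < cnt3 i j k a b d := by
  obtain ⟨τ, h1, h2, h3⟩ := exists_perm3 i j k a b d hij hik hjk hab had hbd
  rw [cnt3, Finset.card_pos]
  exact ⟨τ, by simp [h1, h2, h3]⟩

/-- `cnt2 = (n-2) cnt3`. -/
theorem cnt2_eq_mul (i j k a b d : N) (hij : i ≠ j) (hik : i ≠ k) (hjk : j ≠ k)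
    (hab : a ≠ b) (had : a ≠ d) (hbd : b ≠ d) :
    cnt2 i j a b = (Fintype.card N - 2) * cnt3 i j k a b d := by
  have h1 : cnt2 i j a b = ∑ e ∈ (Finset.univ.erase a).erase b, cnt3 i j k a b e := by
    rw [cnt2, Finset.card_eq_sum_card_fiberwise (f := fun σ : Equiv.Perm N => σ k)
      (t := (Finset.univ.erase a).erase b)]
    · refine Finset.sum_congr rfl fun e _ => ?_
      rw [cnt3, Finset.filter_filter]
      congr 1
      ext σ
      simp [and_assoc]
    · intro σ hσ
      simp only [Finset.coe_filter, Finset.mem_univ, true_and, Set.mem_ofPred_eq] at hσ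
      simp only [Finset.coe_erase, Finset.coe_univ, Set.mem_sdiff, Set.mem_univ, true_and,
        Set.mem_singleton_iff]
      refine ⟨?_, ?_⟩
      · rw [← hσ.1]
        exact fun h => hik (σ.injective h).symm
      · rw [← hσ.2]
        exact fun h => hjk (σ.injective h).symm
  rw [h1, Finset.sum_congr rfl (g := fun _ => cnt3 i j k a b d), Finset.sum_const, smul_eq_mul]
  · rw [Finset.card_erase_of_mem (by simp [hab.symm]), Finset.card_erase_of_mem (by simp),
      Finset.card_univ]
    rfl
  · intro e he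
    simp only [Finset.mem_erase, Finset.mem_univ, and_true, ne_eq] at he
    exact cnt3_eq _ _ _ _ _ _ _ _ _ _ _ _ hij hik hjk hab (Ne.symm he.2) (Ne.symm he.1)
      hij hik hjk hab had hbd

/-- `n! = n cnt1`. -/
theorem card_eq_mul_cnt1 (i a : N) :
    Fintype.card (Equiv.Perm N) = Fintype.card N * cnt1 i a := by
  rw [← Finset.card_univ, Finset.card_eq_sum_card_fiberwise (f := fun σ : Equiv.Perm N => σ i)
    (t := Finset.univ) (by intro σ _; simp)]
  rw [Finset.sum_congr rfl (g := fun _ => cnt1 i a), Finset.sum_const, smul_eq_mul,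
    Finset.card_univ]
  intro e _
  exact cnt1_eq _ _ _ _

section perm

variable {R : Type*} [CommRing R]

/-- all rows equal to one -/
def J (N R : Type*) [CommRing R] : N → N → R := fun _ _ => 1

theorem permMl_J : permMl N R (J N R) = (Fintype.card (Equiv.Perm N) : R) := by
  rw [permMl_apply]
  simp [J]

theorem permMl_J1 (i : N) (c : N → R) :
    permMl N R (Function.update (J N R) i c) = ∑ a, (cnt1 i a : R) * c a := by
  rw [permMl_apply]
  have h1 : ∀ σ : Equiv.Perm N, ∏ k, (Function.update (J N R) i c) k (σ k) = c (σ i) := by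
    intro σ
    rw [Fintype.prod_eq_single i]
    · simp
    · intro k hk
      rw [Function.update_of_ne hk]
      rfl
  rw [Finset.sum_congr rfl (fun σ _ => h1 σ)]
  rw [← Finset.sum_fiberwise_of_maps_to (s := (Finset.univ : Finset (Equiv.Perm N)))
    (t := (Finset.univ : Finset N)) (g := fun σ => σ i) (by intro σ _; simp)]
  refine Finset.sum_congr rfl fun a _ => ?_
  rw [Finset.sum_congr rfl (g := fun _ => c a)]
  · rw [Finset.sum_const, nsmul_eq_mul, cnt1]
  · intro σ hσ
    rw [(Finset.mem_filter.mp hσ).2]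

theorem permMl_J2 (i j : N) (hij : i ≠ j) (c d : N → R) :
    permMl N R (Function.update (Function.update (J N R) i c) j d) =
      ∑ a, ∑ b, (cnt2 i j a b : R) * (c a * d b) := by
  rw [permMl_apply]
  have h1 : ∀ σ : Equiv.Perm N,
      ∏ k, (Function.update (Function.update (J N R) i c) j d) k (σ k) = c (σ i) * d (σ j) := by
    intro σ
    rw [Fintype.prod_eq_mul i j hij]
    · rw [Function.update_self, Function.update_of_ne hij, Function.update_self]
    · intro k hk
      rw [Function.update_of_ne hk.2, Function.update_of_ne hk.1]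
      rfl
  rw [Finset.sum_congr rfl (fun σ _ => h1 σ)]
  rw [← Fintype.sum_prod_type']
  rw [← Finset.sum_fiberwise_of_maps_to (s := (Finset.univ : Finset (Equiv.Perm N)))
    (t := (Finset.univ : Finset (N × N))) (g := fun σ => (σ i, σ j)) (by intro σ _; simp)]
  refine Finset.sum_congr rfl fun p _ => ?_
  rw [Finset.sum_congr rfl (g := fun _ => c p.1 * d p.2)]
  · rw [Finset.sum_const, nsmul_eq_mul, cnt2]
    congr 3
    ext σ
    simp [Prod.ext_iff]
  · intro σ hσ
    rw [← (Finset.mem_filter.mp hσ).2]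

theorem permMl_J3 (i j k : N) (hij : i ≠ j) (hik : i ≠ k) (hjk : j ≠ k) (c d e : N → R) :
    permMl N R (Function.update (Function.update (Function.update (J N R) i c) j d) k e) =
      ∑ a, ∑ b, ∑ f, (cnt3 i j k a b f : R) * (c a * (d b * e f)) := by
  rw [permMl_apply]
  have h1 : ∀ σ : Equiv.Perm N,
      ∏ l, (Function.update (Function.update (Function.update (J N R) i c) j d) k e) l (σ l) =
        c (σ i) * (d (σ j) * e (σ k)) := by
    intro σ
    rw [← Finset.prod_subset (Finset.subset_univ ({i, j, k} : Finset N))]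
    · rw [Finset.prod_insert (by simp [hij, hik]), Finset.prod_insert (by simp [hjk]),
        Finset.prod_singleton]
      rw [Function.update_self, Function.update_of_ne hik, Function.update_of_ne hij,
        Function.update_self, Function.update_of_ne hjk, Function.update_self]
    · intro l _ hl
      simp only [Finset.mem_insert, Finset.mem_singleton, not_or] at hl
      rw [Function.update_of_ne hl.2.2, Function.update_of_ne hl.2.1, Function.update_of_ne hl.1]
      rfl
  rw [Finset.sum_congr rfl (fun σ _ => h1 σ)]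
  have h2 : (∑ a, ∑ b, ∑ f, (cnt3 i j k a b f : R) * (c a * (d b * e f))) =
      ∑ p : N × N × N, (cnt3 i j k p.1 p.2.1 p.2.2 : R) * (c p.1 * (d p.2.1 * e p.2.2)) := by
    rw [Fintype.sum_prod_type]
    refine Finset.sum_congr rfl fun a _ => ?_
    rw [Fintype.sum_prod_type]
  rw [h2]
  rw [← Finset.sum_fiberwise_of_maps_to (s := (Finset.univ : Finset (Equiv.Perm N)))
    (t := (Finset.univ : Finset (N × N × N))) (g := fun σ => (σ i, σ j, σ k))
    (by intro σ _; simp)]
  refine Finset.sum_congr rfl fun p _ => ?_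
  rw [Finset.sum_congr rfl (g := fun _ => c p.1 * (d p.2.1 * e p.2.2))]
  · rw [Finset.sum_const, nsmul_eq_mul, cnt3]
    congr 3
    ext σ
    simp [Prod.ext_iff]
  · intro σ hσ
    rw [← (Finset.mem_filter.mp hσ).2]

end perm

end Pool.Agent.Helper20.MR
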