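import Mathlib
import Pool.Agent.Helper20.MR.Count

/-! The Hessian of the permanent, and its nondegeneracy at the Mignon-Ressayre point. -/

namespace Pool.Agent.Helper20.MR

open Matrix

variable {N : Type*} [Fintype N] [DecidableEq N]

/-- The Hessian of the permanent (mixed second derivatives in the rows). -/
noncomputable def hess {R : Type*} [CommRing R] (x : N → N → R) : Matrix (N × N) (N × N) R :=
  fun p q => if p.1 = q.1 then 0 else
    permMl N R (Function.update (Function.update x p.1 (Pi.single p.2 1)) q.1 (Pi.single q.2 1))

theorem hess_symm {R : Type*} [CommRing R] (x : N → N → R) (p q : N × N) :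
    hess x p q = hess x q p := by
  unfold hess
  by_cases h : p.1 = q.1
  · rw [if_pos h, if_pos h.symm]
  · rw [if_neg h, if_neg (Ne.symm h), Function.update_comm h]

theorem update_map {R S : Type*} (φ : R → S) (x : N → N → R) (i : N) (c : N → R) :
    (fun k a => φ (Function.update x i c k a)) =
      Function.update (fun k a => φ (x k a)) i (fun a => φ (c a)) := by
  funext k a
  by_cases h : k = i
  · subst h; simp
  · simp [h]

theorem hess_map {R S : Type*} [CommRing R] [CommRing S] (φ : R →+* S) (x : N → N → R)
    (p q : N × N) : φ (hess x p q) = hess (fun i a => φ (x i a)) p q := by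
  unfold hess
  split_ifs with h
  · simp
  · rw [permMl_map, update_map, update_map]
    congr 2
    · congr 1
      funext a
      simp [Pi.single_apply]
    · funext a
      simp [Pi.single_apply]

/-- Sums of the Hessian against vectors. -/
theorem sum_hess {R : Type*} [CommRing R] (x : N → N → R) (i j : N) (hij : i ≠ j)
    (c d : N → R) :
    ∑ a, ∑ b, c a * hess x (i, a) (j, b) * d b =
      permMl N R (Function.update (Function.update x i c) j d) := by
  have h1 : ∀ e : N → R, e = ∑ b, e b • (Pi.single b 1 : N → R) := by
    intro e
    funext a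
    simp [Pi.single_apply]
  have h2 : ∀ (y : N → N → R) (k : N) (e : N → R), permMl N R (Function.update y k e) =
      ∑ b, e b * permMl N R (Function.update y k (Pi.single b 1)) := by
    intro y k e
    conv_lhs => rw [h1 e]
    rw [(permMl N R).map_update_sum]
    refine Finset.sum_congr rfl fun b _ => ?_
    rw [(permMl N R).map_update_smul, smul_eq_mul]
  rw [Function.update_comm hij, h2]
  refine Finset.sum_congr rfl fun a _ => ?_
  rw [Function.update_comm hij.symm, h2, Finset.mul_sum]
  refine Finset.sum_congr rfl fun b _ => ?_
  rw [hess, if_neg hij]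
  ring

section special

variable {K : Type*} [Field K] [CharZero K]

theorem cnt2_diag (i j a : N) (hij : i ≠ j) : cnt2 i j a a = 0 := by
  rw [cnt2, Finset.card_eq_zero, Finset.filter_eq_empty_iff]
  rintro σ _ ⟨h1, h2⟩
  exact hij (σ.injective (h1.trans h2.symm))

/-- the Mignon-Ressayre point -/
def mrPt (N K : Type*) [Fintype N] [DecidableEq N] [Field K] (o : N) : N → N → K :=
  Function.update (J N K) o (J N K o - (Fintype.card N : K) • (Pi.single o 1 : N → K))

theorem permMl_J2' (κ : ℕ) (hκ : ∀ i j a b : N, i ≠ j → a ≠ b → cnt2 i j a b = κ)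
    (i j : N) (hij : i ≠ j) (a : N) (c : N → K) :
    permMl N K (Function.update (Function.update (J N K) i (Pi.single a 1)) j c) =
      κ * (∑ b, c b - c a) := by
  rw [permMl_J2 i j hij]
  rw [Finset.sum_eq_single a]
  · have h1 : ∀ b, (cnt2 i j a b : K) * ((Pi.single a 1 : N → K) a * c b) =
        κ * (c b - if b = a then c a else 0) := by
      intro b
      by_cases h : b = a
      · subst h
        rw [cnt2_diag i j b hij]
        simp
      · rw [hκ i j a b hij (Ne.symm h)]
        simp [h]
    rw [Finset.sum_congr rfl (fun b _ => h1 b), ← Finset.mul_sum, Finset.sum_sub_distrib]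
    simp
  · intro b _ hb
    simp [hb]
  · simp

theorem permMl_J3' (κ : ℕ) (hκ : ∀ i j k a b d : N, i ≠ j → i ≠ k → j ≠ k → a ≠ b → a ≠ d →
      b ≠ d → cnt3 i j k a b d = κ)
    (i j k : N) (hij : i ≠ j) (hik : i ≠ k) (hjk : j ≠ k) (o a : N) (hao : a ≠ o) (c : N → K) :
    permMl N K (Function.update (Function.update (Function.update (J N K) i (Pi.single o 1)) j
      (Pi.single a 1)) k c) = κ * (∑ b, c b - c o - c a) := by
  rw [permMl_J3 i j k hij hik hjk]
  rw [Finset.sum_eq_single o, Finset.sum_eq_single a]
  · have h1 : ∀ b, (cnt3 i j k o a b : K) *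
        ((Pi.single o 1 : N → K) o * ((Pi.single a 1 : N → K) a * c b)) =
        κ * (c b - (if b = o then c o else 0) - if b = a then c a else 0) := by
      intro b
      by_cases h : b = o
      · subst h
        have : cnt3 i j k b a b = 0 := by
          rw [cnt3, Finset.card_eq_zero, Finset.filter_eq_empty_iff]
          rintro σ _ ⟨h1, h2, h3⟩
          exact hik (σ.injective (h1.trans h3.symm))
        rw [this]
        simp [hao.symm]
      · by_cases h' : b = a
        · subst h'
          have : cnt3 i j k o b b = 0 := by
            rw [cnt3, Finset.card_eq_zero, Finset.filter_eq_empty_iff]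
            rintro σ _ ⟨h1, h2, h3⟩
            exact hjk (σ.injective (h2.trans h3.symm))
          rw [this]
          simp [h]
        · rw [hκ i j k o a b hij hik hjk hao.symm (Ne.symm h) (Ne.symm h')]
          simp [h, h']
    rw [Finset.sum_congr rfl (fun b _ => h1 b), ← Finset.mul_sum, Finset.sum_sub_distrib,
      Finset.sum_sub_distrib]
    simp
  · intro b _ hb
    simp [hb]
  · simp
  · intro b _ hb
    simp [hb]
  · simp

theorem permMl_J3_same (i j k : N) (hij : i ≠ j) (hik : i ≠ k) (hjk : j ≠ k) (o : N)
    (c : N → K) :
    permMl N K (Function.update (Function.update (Function.update (J N K) i (Pi.single o 1)) j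
      (Pi.single o 1)) k c) = 0 := by
  rw [permMl_J3 i j k hij hik hjk]
  refine Finset.sum_eq_zero fun a _ => Finset.sum_eq_zero fun b _ => Finset.sum_eq_zero fun d _ =>
    ?_
  by_cases ha : a = o
  · by_cases hb : b = o
    · subst ha; subst hb
      have : cnt3 i j k b b d = 0 := by
        rw [cnt3, Finset.card_eq_zero, Finset.filter_eq_empty_iff]
        rintro σ _ ⟨h1, h2, h3⟩
        exact hij (σ.injective (h1.trans h2.symm))
      rw [this]
      simp
    · simp [hb]
  · simp [ha]

theorem permMl_mrPt (o : N) : permMl N K (mrPt N K o) = 0 := by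
  rw [mrPt, (permMl N K).map_update_sub, (permMl N K).map_update_smul, Function.update_eq_self,
    permMl_J, permMl_J1, Finset.sum_eq_single o]
  · rw [card_eq_mul_cnt1 o o]
    simp
  · intro b _ hb
    simp [hb]
  · simp

end special

end Pool.Agent.Helper20.MR
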