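import Mathlib

/-! Second order Taylor expansion of polynomials with two square-zero parameters. -/

namespace Pool.Agent.Helper20.MR

open MvPolynomial

section

variable {K : Type*} [CommRing K] {τ : Type*} [Fintype τ] [DecidableEq τ]
  {A S : Type*} [CommRing A] [Algebra K A] [CommRing S] [Algebra K S]

/-- First order term. -/
noncomputable def grad (f : MvPolynomial τ K) (x c : τ → A) : A :=
  ∑ s, c s * aeval x (pderiv s f)

/-- Second order term. -/
noncomputable def hessForm (f : MvPolynomial τ K) (x c d : τ → A) : A :=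
  ∑ s, ∑ t, c s * d t * aeval x (pderiv t (pderiv s f))

theorem grad_mul_X (f : MvPolynomial τ K) (x c : τ → A) (u : τ) :
    grad (f * X u) x c = grad f x c * x u + aeval x f * c u := by
  unfold grad
  simp only [Derivation.leibniz, pderiv_X, smul_eq_mul, map_add, map_mul, aeval_X]
  rw [Finset.sum_mul, ← Finset.sum_congr rfl (fun s _ => (show
    c s * aeval x f * aeval x ((Pi.single s 1 : τ → MvPolynomial τ K) u) +
      c s * aeval x (pderiv s f) * x u =
    c s * (aeval x f * aeval x ((Pi.single s 1 : τ → MvPolynomial τ K) u) +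
      x u * aeval x (pderiv s f)) by ring))]
  rw [Finset.sum_add_distrib, add_comm]
  congr 1
  rw [Finset.sum_eq_single u]
  · simp [mul_comm]
  · intro s _ hs
    rw [Pi.single_eq_of_ne (Ne.symm hs)]
    simp
  · simp

theorem hessForm_mul_X (f : MvPolynomial τ K) (x c d : τ → A) (u : τ) :
    hessForm (f * X u) x c d =
      hessForm f x c d * x u + grad f x c * d u + grad f x d * c u := by
  have h1 : ∀ s, ∑ t, c s * d t * aeval x (pderiv t (pderiv s (f * X u))) =
      c s * grad (pderiv s (f * X u)) x d := by
    intro s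
    unfold grad
    rw [Finset.mul_sum]
    exact Finset.sum_congr rfl fun t _ => by ring
  have h2 : ∀ s, pderiv s (f * X u) = pderiv s f * X u + if s = u then f else 0 := by
    intro s
    rw [Derivation.leibniz, pderiv_X, smul_eq_mul, smul_eq_mul, add_comm, mul_comm (X u)]
    congr 1
    by_cases h : s = u
    · subst h; simp
    · rw [Pi.single_eq_of_ne (Ne.symm h), if_neg h, mul_zero]
  have h3 : ∀ (g g' : MvPolynomial τ K), grad (g + g') x d = grad g x d + grad g' x d := by
    intro g g'
    unfold grad
    simp only [map_add, mul_add, Finset.sum_add_distrib]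
  unfold hessForm
  rw [Finset.sum_congr rfl (fun s _ => h1 s)]
  have h4 : ∀ s, c s * grad (pderiv s (f * X u)) x d =
      (∑ t, c s * d t * aeval x (pderiv t (pderiv s f))) * x u +
        c s * aeval x (pderiv s f) * d u + if s = u then c s * grad f x d else 0 := by
    intro s
    rw [h2, h3, grad_mul_X]
    have h5 : ∑ t, c s * d t * aeval x (pderiv t (pderiv s f)) = c s * grad (pderiv s f) x d := by
      unfold grad
      rw [Finset.mul_sum]
      exact Finset.sum_congr rfl fun t _ => by ring
    rw [h5]
    by_cases h : s = u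
    · simp only [h, if_true]
      ring
    · simp only [h, if_false, grad, map_zero, mul_zero, Finset.sum_const_zero]
      ring
  rw [Finset.sum_congr rfl (fun s _ => h4 s), Finset.sum_add_distrib, Finset.sum_add_distrib,
    ← Finset.sum_mul, ← Finset.sum_mul]
  simp only [Finset.sum_ite_eq', Finset.mem_univ, if_true, grad]
  ring

theorem taylor (ψ : A →ₐ[K] S) (x c d : τ → A) (e₁ e₂ : S) (h₁ : e₁ * e₁ = 0)
    (h₂ : e₂ * e₂ = 0) (f : MvPolynomial τ K) :
    aeval (fun s => ψ (x s) + e₁ * ψ (c s) + e₂ * ψ (d s)) f =
      ψ (aeval x f) + e₁ * ψ (grad f x c) + e₂ * ψ (grad f x d) +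
        e₁ * e₂ * ψ (hessForm f x c d) := by
  induction f using MvPolynomial.induction_on with
  | C a =>
    have h3 : ∀ s, pderiv s (C a : MvPolynomial τ K) = 0 := fun s => pderiv_C
    simp [grad, hessForm, h3]
  | add p q hp hq =>
    have h3 : ∀ y : τ → A, grad (p + q) x y = grad p x y + grad q x y := by
      intro y
      unfold grad
      simp only [map_add, mul_add, Finset.sum_add_distrib]
    have h4 : hessForm (p + q) x c d = hessForm p x c d + hessForm q x c d := by
      unfold hessForm
      simp only [map_add, mul_add, Finset.sum_add_distrib]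
    rw [map_add, hp, hq, h3, h3, h4]
    simp only [map_add]
    ring
  | mul_X p u hp =>
    rw [map_mul, hp, aeval_X, grad_mul_X, grad_mul_X, hessForm_mul_X]
    simp only [map_add, map_mul, aeval_X]
    linear_combination (ψ (grad p x c) * ψ (c u) + e₂ * ψ (hessForm p x c d) * ψ (c u)) * h₁ +
      (ψ (grad p x d) * ψ (d u) + e₁ * ψ (hessForm p x c d) * ψ (d u)) * h₂

end

/-- Extraction of the mixed second order term. -/
theorem hessForm_eq_zero {K : Type*} [Field K] {τ : Type*} [Fintype τ] [DecidableEq τ]
    {L : Type*} [Field L] [Algebra K L] (f : MvPolynomial τ K) (x c d : τ → L)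
    (h : aeval (fun s => (TrivSqZeroExt.inl (TrivSqZeroExt.inl (x s)) :
        DualNumber (DualNumber L)) +
      TrivSqZeroExt.inl DualNumber.eps * TrivSqZeroExt.inl (TrivSqZeroExt.inl (c s)) +
      DualNumber.eps * TrivSqZeroExt.inl (TrivSqZeroExt.inl (d s))) f = 0) :
    hessForm f x c d = 0 := by
  have h1 := taylor (K := K) (A := L) (S := DualNumber (DualNumber L))
    ((TrivSqZeroExt.inlAlgHom K (DualNumber L) (DualNumber L)).comp
      (TrivSqZeroExt.inlAlgHom K L L)) x c d (TrivSqZeroExt.inl DualNumber.eps) DualNumber.eps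
      (by rw [← TrivSqZeroExt.inl_mul, DualNumber.eps_mul_eps, TrivSqZeroExt.inl_zero])
      DualNumber.eps_mul_eps f
  have h2 := h1.symm.trans h
  have h3 := congrArg (fun z => TrivSqZeroExt.snd (TrivSqZeroExt.snd z)) h2
  simpa using h3

end Pool.Agent.Helper20.MR
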