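import Mathlib
import Pool.Agent.Helper20.MR.Hess
import Pool.Agent.Helper20.MR.Taylor

/-! The generic permanent as a polynomial; its second derivatives. -/

namespace Pool.Agent.Helper20.MR

open MvPolynomial Matrix

variable {N : Type*} [Fintype N] [DecidableEq N]

/-- The generic permanent. -/
noncomputable def permPoly (N K : Type*) [Fintype N] [DecidableEq N] [CommRing K] :
    MvPolynomial (N × N) K :=
  permMl N (MvPolynomial (N × N) K) (fun i a => X (i, a))

theorem aeval_permPoly {K A : Type*} [CommRing K] [CommRing A] [Algebra K A]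
    (x : N × N → A) : aeval x (permPoly N K) = permMl N A (fun i a => x (i, a)) := by
  have h := permMl_map (N := N) ((aeval x : MvPolynomial (N × N) K →ₐ[K] A) :
    MvPolynomial (N × N) K →+* A) (fun i a => X (i, a))
  simp only [RingHom.coe_coe, aeval_X] at h
  exact h

omit [Fintype N] in
theorem single_curry {A : Type*} [CommRing A] (p : N × N) (k a : N) :
    (Pi.single p (1 : A) : N × N → A) (k, a) =
      (Pi.single p.1 (Pi.single p.2 (1 : A)) : N → N → A) k a := by
  obtain ⟨i, b⟩ := p
  by_cases h : k = i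
  · subst h
    by_cases h' : a = b
    · subst h'; simp
    · rw [Pi.single_eq_of_ne (by simp [h']), Pi.single_eq_same, Pi.single_eq_of_ne h']
  · rw [Pi.single_eq_of_ne (by simp [h]), Pi.single_eq_of_ne h]
    rfl

theorem hessForm_single {K A : Type*} [CommRing K] [CommRing A] [Algebra K A] {τ : Type*}
    [Fintype τ] [DecidableEq τ] (f : MvPolynomial τ K) (x : τ → A) (p q : τ) :
    hessForm f x (Pi.single p 1) (Pi.single q 1) = aeval x (pderiv q (pderiv p f)) := by
  unfold hessForm
  rw [Finset.sum_eq_single p, Finset.sum_eq_single q]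
  · simp
  · intro t _ ht
    rw [Pi.single_eq_of_ne ht]
    simp
  · simp
  · intro s _ hs
    refine Finset.sum_eq_zero fun t _ => ?_
    rw [Pi.single_eq_of_ne hs]
    simp
  · simp

theorem permMl_same_row {R : Type*} [CommRing R] (x : N → N → R) (i : N) (c d : N → R)
    (e₁ e₂ : R) :
    permMl N R (fun k a => x k a + e₁ * (Pi.single i c : N → N → R) k a +
      e₂ * (Pi.single i d : N → N → R) k a) =
    permMl N R x + e₁ * permMl N R (Function.update x i c) +
      e₂ * permMl N R (Function.update x i d) := by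
  have h1 : (fun k a => x k a + e₁ * (Pi.single i c : N → N → R) k a +
      e₂ * (Pi.single i d : N → N → R) k a) =
      Function.update x i (x i + e₁ • c + e₂ • d) := by
    funext k a
    by_cases hki : k = i
    · subst hki
      simp
    · rw [Function.update_of_ne hki]
      simp [hki]
  rw [h1, (permMl N R).map_update_add, (permMl N R).map_update_add,
    (permMl N R).map_update_smul, (permMl N R).map_update_smul, Function.update_eq_self]
  simp

theorem permMl_algHom {K A S : Type*} [CommRing K] [CommRing A] [Algebra K A] [CommRing S]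
    [Algebra K S] (ψ : A →ₐ[K] S) (y : N → N → A) :
    permMl N S (fun i a => ψ (y i a)) = ψ (permMl N A y) :=
  (permMl_map (N := N) (ψ : A →+* S) y).symm

theorem second_order {K A S : Type*} [CommRing K] [CommRing A] [Algebra K A] [CommRing S]
    [Algebra K S] (ψ : A →ₐ[K] S) (e₁ e₂ : S) (h₁ : e₁ * e₁ = 0) (h₂ : e₂ * e₂ = 0)
    (x : N × N → A) (p q : N × N) :
    ∃ u v u' v' w : A, ψ w + e₁ * ψ u + e₂ * ψ v +
      e₁ * e₂ * ψ (aeval x (pderiv q (pderiv p (permPoly N K)))) =
      ψ w + e₁ * ψ u' + e₂ * ψ v' + e₁ * e₂ * ψ (hess (fun i a => x (i, a)) p q) := by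
  have h0 := taylor ψ x (Pi.single p 1) (Pi.single q 1) e₁ e₂ h₁ h₂ (permPoly N K)
  rw [hessForm_single, aeval_permPoly x, aeval_permPoly] at h0
  have h2 : (fun i a : N => ψ (x (i, a)) + e₁ * ψ ((Pi.single p 1 : N × N → A) (i, a)) +
      e₂ * ψ ((Pi.single q 1 : N × N → A) (i, a))) =
      (fun i a : N => ψ (x (i, a)) + e₁ * (Pi.single p.1 (Pi.single p.2 1) : N → N → S) i a +
      e₂ * (Pi.single q.1 (Pi.single q.2 1) : N → N → S) i a) := by
    have h3 : ∀ (p : N × N) (i a : N), ψ ((Pi.single p 1 : N × N → A) (i, a)) =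
        (Pi.single p.1 (Pi.single p.2 1) : N → N → S) i a := by
      intro p i a
      refine Eq.trans ?_ (single_curry (A := S) p i a)
      by_cases h : (i, a) = p
      · subst h; simp
      · rw [Pi.single_eq_of_ne h, Pi.single_eq_of_ne h, map_zero]
    funext i a
    rw [h3, h3]
  rw [h2] at h0
  have h5 : ∀ b : N, (Pi.single b 1 : N → S) = fun a => ψ ((Pi.single b 1 : N → A) a) := by
    intro b
    funext a
    by_cases h : a = b
    · subst h; simp
    · rw [Pi.single_eq_of_ne h, Pi.single_eq_of_ne h, map_zero]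
  by_cases hpq : p.1 = q.1
  · rw [hpq, permMl_same_row, ← hpq, h5 p.2, h5 q.2, ← update_map, ← update_map,
      permMl_algHom, permMl_algHom, permMl_algHom] at h0
    refine ⟨_, _, permMl N A (Function.update (fun i a => x (i, a)) p.1 (Pi.single p.2 1)),
      permMl N A (Function.update (fun i a => x (i, a)) p.1 (Pi.single q.2 1)), _,
      h0.symm.trans ?_⟩
    rw [hess, if_pos hpq, map_zero, mul_zero, add_zero]
  · rw [permMl_expand _ _ _ hpq, h5 p.2, h5 q.2, ← update_map, ← update_map, ← update_map,
      permMl_algHom, permMl_algHom, permMl_algHom, permMl_algHom] at h0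
    refine ⟨_, _, permMl N A (Function.update (fun i a => x (i, a)) p.1 (Pi.single p.2 1)),
      permMl N A (Function.update (fun i a => x (i, a)) q.1 (Pi.single q.2 1)), _,
      h0.symm.trans ?_⟩
    rw [hess, if_neg hpq]

theorem pderiv_pderiv_permPoly {K A : Type*} [CommRing K] [CommRing A] [Algebra K A]
    (x : N × N → A) (p q : N × N) :
    aeval x (pderiv q (pderiv p (permPoly N K))) = hess (fun i a => x (i, a)) p q := by
  obtain ⟨u, v, u', v', w, h⟩ := second_order (K := K) (A := A) (S := DualNumber (DualNumber A))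
    ((TrivSqZeroExt.inlAlgHom K (DualNumber A) (DualNumber A)).comp
      (TrivSqZeroExt.inlAlgHom K A A)) (TrivSqZeroExt.inl DualNumber.eps) DualNumber.eps
      (by rw [← TrivSqZeroExt.inl_mul, DualNumber.eps_mul_eps, TrivSqZeroExt.inl_zero])
      DualNumber.eps_mul_eps x p q
  have h6 := congrArg (fun z => TrivSqZeroExt.snd (TrivSqZeroExt.snd z)) h
  simpa using h6

end Pool.Agent.Helper20.MR
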