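import Mathlib
import Pool.Agent.Helper20.MR.PermPoly

/-! Divisors of the generic permanent which miss a variable are constants. -/

namespace Pool.Agent.Helper20.MR

open MvPolynomial Matrix

variable {N : Type*} [Fintype N] [DecidableEq N]

theorem permPoly_eq_sum {K : Type*} [CommRing K] :
    permPoly N K = ∑ σ : Equiv.Perm N, ∏ i, (X (i, σ i) : MvPolynomial (N × N) K) := by
  rw [permPoly, permMl_apply]

theorem degreeOf_permPoly_le {K : Type*} [Field K] (p : N × N) :
    degreeOf p (permPoly N K) ≤ 1 := by
  rw [permPoly_eq_sum]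
  refine (degreeOf_sum_le p _ _).trans ?_
  refine Finset.sup_le fun σ _ => ?_
  refine (degreeOf_prod_le p _ _).trans ?_
  have h1 : ∀ i, degreeOf p (X (i, σ i) : MvPolynomial (N × N) K) ≤ if p.1 = i then 1 else 0 := by
    intro i
    rw [degreeOf_X]
    by_cases h : p.1 = i
    · rw [if_pos h]
      split_ifs <;> omega
    · rw [if_neg h, if_neg]
      intro h'
      exact h (by rw [h'])
  refine (Finset.sum_le_sum fun i _ => h1 i).trans ?_
  simp

theorem permMl_permMatrix {R : Type*} [CommRing R] (σ : Equiv.Perm N) :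
    permMl N R (fun k b => if σ k = b then 1 else 0) = 1 := by
  rw [permMl_apply, Finset.sum_eq_single σ]
  · simp
  · intro τ _ hτ
    obtain ⟨i, hi⟩ : ∃ i, σ i ≠ τ i := by
      by_contra h
      push Not at h
      exact hτ (Equiv.ext fun i => (h i).symm)
    exact Finset.prod_eq_zero (Finset.mem_univ i) (if_neg hi)
  · simp

theorem one_le_degreeOf_permPoly {K : Type*} [Field K] (p : N × N) :
    1 ≤ degreeOf p (permPoly N K) := by
  by_contra h
  have h0 : p ∉ (permPoly N K).vars := by
    rw [mem_vars_iff_degreeOf_ne_zero]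
    omega
  let σ : Equiv.Perm N := Equiv.swap p.1 p.2
  have hσ : σ p.1 = p.2 := Equiv.swap_apply_left _ _
  let x₁ : N × N → K := fun q => if σ q.1 = q.2 then 1 else 0
  let x₂ : N × N → K := fun q => if q = p then 0 else if σ q.1 = q.2 then 1 else 0
  have h1 : aeval x₁ (permPoly N K) = 1 := by
    rw [aeval_permPoly]
    exact permMl_permMatrix σ
  have h2 : aeval x₂ (permPoly N K) = 0 := by
    rw [aeval_permPoly, permMl_apply]
    refine Finset.sum_eq_zero fun τ _ => ?_
    by_cases hτ : ∀ i, σ i = τ i
    · refine Finset.prod_eq_zero (Finset.mem_univ p.1) ?_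
      simp only [x₂]
      rw [if_pos]
      rw [← hτ, hσ]
    · push Not at hτ
      obtain ⟨i, hi⟩ := hτ
      refine Finset.prod_eq_zero (Finset.mem_univ i) ?_
      simp only [x₂]
      rw [if_neg hi]
      simp
  have h3 : aeval x₁ (permPoly N K) = aeval x₂ (permPoly N K) := by
    refine eval₂Hom_congr' rfl ?_ rfl
    intro q hq _
    have hqp : q ≠ p := by
      rintro rfl
      exact h0 hq
    simp [x₁, x₂, hqp]
  rw [h1, h2] at h3
  exact one_ne_zero h3

theorem pderiv_ne_zero {K τ : Type*} [Field K] [CharZero K] (w : MvPolynomial τ K) (p : τ)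
    (h : degreeOf p w ≠ 0) : pderiv p w ≠ 0 := by
  classical
  have hv : p ∈ w.vars := mem_vars_iff_degreeOf_ne_zero.mpr h
  obtain ⟨m, hm, hpm⟩ := (mem_vars_iff_mem_support p).mp hv
  intro h0
  have h1 : coeff (m - Finsupp.single p 1) (pderiv p w) = 0 := by rw [h0, coeff_zero]
  rw [coeff_pderiv] at h1
  have h2 : m - Finsupp.single p 1 + Finsupp.single p 1 = m := by
    refine tsub_add_cancel_of_le ?_
    rw [Finsupp.single_le_iff]
    exact Nat.one_le_iff_ne_zero.mpr (Finsupp.mem_support_iff.mp hpm)
  rw [h2] at h1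
  rcases mul_eq_zero.mp h1 with h3 | h3
  · exact (mem_support_iff.mp hm) h3
  · exact absurd h3 (Nat.cast_add_one_ne_zero _)

theorem pderiv_comm' {K τ : Type*} [CommRing K] (w : MvPolynomial τ K) (p q : τ) :
    pderiv q (pderiv p w) = pderiv p (pderiv q w) := by
  classical
  by_cases hpq : p = q
  · rw [hpq]
  ext m
  rw [coeff_pderiv, coeff_pderiv, coeff_pderiv, coeff_pderiv]
  rw [show m + Finsupp.single q 1 + Finsupp.single p 1 = m + Finsupp.single p 1 +
    Finsupp.single q 1 by abel]
  rw [Finsupp.add_apply, Finsupp.add_apply, Finsupp.single_eq_of_ne hpq,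
    Finsupp.single_eq_of_ne (Ne.symm hpq)]
  push_cast
  ring

theorem isUnit_of_dvd_permPoly {K : Type*} [Field K] [CharZero K] (w : MvPolynomial (N × N) K)
    (hw : w ∣ permPoly N K) (p₀ : N × N) (hp₀ : degreeOf p₀ w = 0) : IsUnit w := by
  obtain ⟨h, hh⟩ := hw
  have hP : permPoly N K ≠ 0 := by
    intro h0
    have := one_le_degreeOf_permPoly (K := K) p₀
    rw [h0, degreeOf_zero] at this
    omega
  have hw0 : w ≠ 0 := by
    rintro rfl
    exact hP (by rw [hh, zero_mul])
  have hh0 : h ≠ 0 := by
    rintro rfl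
    exact hP (by rw [hh, mul_zero])
  have hdeg : ∀ p, degreeOf p w + degreeOf p h = 1 := by
    intro p
    rw [← degreeOf_mul_eq hw0 hh0, ← hh]
    exact le_antisymm (degreeOf_permPoly_le p) (one_le_degreeOf_permPoly p)
  -- two variables in one row or one column
  have hline : ∀ p q : N × N, (p.1 = q.1 ∨ p.2 = q.2) → degreeOf p w ≠ 0 → degreeOf q w ≠ 0 := by
    intro p q hpq hp hq
    have h1 : pderiv q (pderiv p (permPoly N K)) = 0 := by
      have h2 := pderiv_pderiv_permPoly (K := K) (A := MvPolynomial (N × N) K) X p q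
      rw [MvPolynomial.aeval_X_left_apply] at h2
      rw [h2]
      unfold hess
      split_ifs with h3
      · rfl
      · have h4 : p.2 = q.2 := hpq.resolve_left h3
        rw [permMl_apply]
        refine Finset.sum_eq_zero fun σ _ => ?_
        by_cases h5 : σ p.1 = p.2
        · refine Finset.prod_eq_zero (Finset.mem_univ q.1) ?_
          rw [Function.update_self]
          refine Pi.single_eq_of_ne ?_ _
          rw [← h4, ← h5]
          exact fun h6 => h3 (σ.injective h6).symm
        · refine Finset.prod_eq_zero (Finset.mem_univ p.1) ?_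
          rw [Function.update_of_ne h3, Function.update_self]
          exact Pi.single_eq_of_ne h5 _
    have hph : pderiv p h = 0 := by
      refine pderiv_eq_zero_of_notMem_vars ?_
      rw [mem_vars_iff_degreeOf_ne_zero]
      have := hdeg p
      omega
    have hqw : pderiv q w = 0 := by
      refine pderiv_eq_zero_of_notMem_vars ?_
      rw [mem_vars_iff_degreeOf_ne_zero]
      omega
    rw [hh, pderiv_mul, hph, mul_zero, add_zero, pderiv_mul, pderiv_comm', hqw, map_zero,
      zero_mul, zero_add] at h1
    rcases mul_eq_zero.mp h1 with h7 | h7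
    · exact pderiv_ne_zero w p hp h7
    · refine pderiv_ne_zero h q ?_ h7
      have := hdeg q
      omega
  -- no variables at all
  have hall : ∀ p, degreeOf p w = 0 := by
    intro p
    by_contra hp
    have h1 := hline p (p.1, p₀.2) (Or.inl rfl) hp
    exact hline (p.1, p₀.2) p₀ (Or.inr rfl) h1 hp₀
  rw [isUnit_iff_totalDegree_of_isReduced]
  have hvars : w.vars = ∅ := by
    rw [Finset.eq_empty_iff_forall_notMem]
    intro p hp
    exact (mem_vars_iff_degreeOf_ne_zero.mp hp) (hall p)
  have hC : w = C (constantCoeff w) := by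
    have h1 : w = aeval (fun _ => (0 : MvPolynomial (N × N) K)) w := by
      conv_lhs => rw [← MvPolynomial.aeval_X_left_apply w]
      refine eval₂Hom_congr' rfl ?_ rfl
      intro q hq _
      rw [hvars] at hq
      exact absurd hq (Finset.notMem_empty q)
    conv_lhs => rw [h1]
    exact MvPolynomial.aeval_zero' w
  have hc0 : constantCoeff w ≠ 0 := by
    intro h0
    rw [h0, map_zero] at hC
    exact hw0 hC
  refine ⟨hc0.isUnit, ?_⟩
  rw [hC, totalDegree_C]

end Pool.Agent.Helper20.MR
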