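import Mathlib
import Pool.Agent.Helper20.MR.Hess

/-! The Hessian of the permanent at an arrow matrix. -/

namespace Pool.Agent.Helper20.MR

open Matrix

variable {N : Type*} [Fintype N] [DecidableEq N] {K : Type*} [CommRing K]

/-- The arrow matrix: the identity, with ones in row and column `o` and `1 - n` at `(o, o)`. -/
def arrow (N K : Type*) [Fintype N] [DecidableEq N] [CommRing K] (o : N) : N → N → K :=
  fun r c => if r = o then (if c = o then 1 - (Fintype.card N : K) else 1)
    else if c = r ∨ c = o then 1 else 0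

theorem arrow_oo (o : N) : arrow N K o o o = 1 - (Fintype.card N : K) := by simp [arrow]

theorem arrow_o (o c : N) (hc : c ≠ o) : arrow N K o o c = 1 := by simp [arrow, hc]

theorem arrow_of_ne (o r c : N) (hr : r ≠ o) :
    arrow N K o r c = if c = r ∨ c = o then 1 else 0 := by simp [arrow, hr]

theorem sum_G (S : Finset N) (π : Equiv.Perm N) (hπ : ∀ r, r ∉ S → π r = r) (o : N) (ho : o ∉ S)
    (f : N → K) :
    ∑ σ ∈ Finset.univ.filter (fun σ : Equiv.Perm N => (∀ r ∈ S, σ r = π r) ∧
      ∀ r, r ∉ S → r ≠ o → (σ r = r ∨ σ r = o)), f (σ o) = ∑ c ∈ Sᶜ, f c := by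
  have hS : ∀ s ∈ S, ∃ s' ∈ S, π s' = s := by
    intro s hs
    refine ⟨π.symm s, ?_, π.apply_symm_apply s⟩
    by_contra h
    have h1 := hπ _ h
    rw [π.apply_symm_apply] at h1
    rw [← h1] at h
    exact h hs
  have hoS : ∀ σ : Equiv.Perm N, (∀ r ∈ S, σ r = π r) → σ o ∉ S := by
    intro σ h1 h2
    obtain ⟨s', hs', h3⟩ := hS _ h2
    rw [← h1 s' hs'] at h3
    have := σ.injective h3
    rw [this] at hs'
    exact ho hs'
  refine Finset.sum_nbij' (fun σ => σ o) (fun c => π * Equiv.swap o c) ?_ ?_ ?_ ?_ ?_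
  · intro σ hσ
    rw [Finset.mem_filter] at hσ
    rw [Finset.mem_compl]
    exact hoS σ hσ.2.1
  · intro c hc
    rw [Finset.mem_compl] at hc
    rw [Finset.mem_filter]
    refine ⟨Finset.mem_univ _, ?_, ?_⟩
    · intro r hr
      rw [Equiv.Perm.mul_apply, Equiv.swap_apply_of_ne_of_ne]
      · rintro rfl
        exact ho hr
      · rintro rfl
        exact hc hr
    · intro r hr hro
      rw [Equiv.Perm.mul_apply]
      by_cases hrc : r = c
      · right
        rw [hrc, Equiv.swap_apply_right, hπ o ho]
      · left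
        rw [Equiv.swap_apply_of_ne_of_ne hro hrc, hπ r hr]
  · intro σ hσ
    rw [Finset.mem_filter] at hσ
    obtain ⟨-, h1, h2⟩ := hσ
    have h3 := hoS σ h1
    refine Equiv.ext fun r => ?_
    rw [Equiv.Perm.mul_apply]
    by_cases hrS : r ∈ S
    · rw [Equiv.swap_apply_of_ne_of_ne, h1 r hrS]
      · rintro rfl
        exact ho hrS
      · rintro rfl
        exact h3 hrS
    · by_cases hro : r = o
      · rw [hro, Equiv.swap_apply_left, hπ _ h3]
      · by_cases hrt : r = σ o
        · rw [← hrt, Equiv.swap_apply_right, hπ o ho]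
          rcases h2 r hrS hro with h4 | h4
          · exact absurd (σ.injective (h4.trans hrt)) hro
          · exact h4.symm
        · rw [Equiv.swap_apply_of_ne_of_ne hro hrt, hπ r hrS]
          rcases h2 r hrS hro with h4 | h4
          · exact h4.symm
          · exfalso
            by_cases hto : σ o = o
            · exact hro (σ.injective (h4.trans hto.symm))
            · rcases h2 (σ o) h3 hto with h5 | h5
              · exact hto (σ.injective h5)
              · exact hrt (σ.injective (h4.trans h5.symm))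
  · intro c hc
    rw [Finset.mem_compl] at hc
    rw [Equiv.Perm.mul_apply, Equiv.swap_apply_left, hπ c hc]
  · intro σ _
    rfl

theorem permMl_arrow (o : N) : permMl N K (arrow N K o) = 0 := by
  have h1 := sum_G (K := K) (∅ : Finset N) 1 (fun r _ => rfl) o (Finset.notMem_empty o)
    (arrow N K o o)
  have h2 : permMl N K (arrow N K o) =
      ∑ σ ∈ Finset.univ.filter (fun σ : Equiv.Perm N => (∀ r ∈ (∅ : Finset N), σ r = (1 : Equiv.Perm N) r) ∧
      ∀ r, r ∉ (∅ : Finset N) → r ≠ o → (σ r = r ∨ σ r = o)), arrow N K o o (σ o) := by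
    rw [permMl_apply, Finset.sum_filter]
    refine Finset.sum_congr rfl fun σ _ => ?_
    split_ifs with h
    · refine Fintype.prod_eq_single o ?_
      intro r hr
      rw [arrow_of_ne o r _ hr, if_pos (h.2 r (Finset.notMem_empty r) hr)]
    · have h' : ∃ r, r ≠ o ∧ ¬ (σ r = r ∨ σ r = o) := by
        by_contra hcon
        push Not at hcon
        refine h ⟨by simp, fun r _ hr => ?_⟩
        by_contra h3
        exact h3 (by simpa [or_iff_not_imp_left] using hcon r hr)
      obtain ⟨r, hr, h3⟩ := h'
      refine Finset.prod_eq_zero (Finset.mem_univ r) ?_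
      rw [arrow_of_ne o r _ hr, if_neg h3]
  rw [h2, h1, Finset.compl_empty, ← Finset.add_sum_erase _ _ (Finset.mem_univ o), arrow_oo,
    Finset.sum_congr rfl (g := fun _ => (1 : K)) (fun c hc => arrow_o o c (Finset.ne_of_mem_erase hc)),
    Finset.sum_const, Finset.card_erase_of_mem (Finset.mem_univ o), Finset.card_univ,
    nsmul_eq_mul, mul_one, Nat.cast_sub (Fintype.card_pos_iff.mpr ⟨o⟩)]
  simp

/-- The second derivatives of the permanent at the arrow matrix as sums over permutations. -/
theorem hess_arrow (o i j a b : N) (hij : i ≠ j) (hi : i ≠ o) (hj : j ≠ o) :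
    hess (arrow N K o) (i, a) (j, b) = ∑ σ ∈ Finset.univ.filter (fun σ : Equiv.Perm N =>
      σ i = a ∧ σ j = b ∧ ∀ r, r ≠ i → r ≠ j → r ≠ o → (σ r = r ∨ σ r = o)),
      arrow N K o o (σ o) := by
  rw [hess, if_neg hij, permMl_apply, Finset.sum_filter]
  refine Finset.sum_congr rfl fun σ _ => ?_
  have hy : ∀ r c, r ≠ i → r ≠ j → Function.update (Function.update (arrow N K o) i
      (Pi.single a 1)) j (Pi.single b 1) r c = arrow N K o r c := by
    intro r c h1 h2
    rw [Function.update_of_ne h2, Function.update_of_ne h1]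
  have hyi : ∀ c, Function.update (Function.update (arrow N K o) i
      (Pi.single a 1)) j (Pi.single b 1) i c = (Pi.single a 1 : N → K) c := by
    intro c
    rw [Function.update_of_ne hij, Function.update_self]
  have hyj : ∀ c, Function.update (Function.update (arrow N K o) i
      (Pi.single a 1)) j (Pi.single b 1) j c = (Pi.single b 1 : N → K) c := by
    intro c
    rw [Function.update_self]
  split_ifs with h
  · rw [Fintype.prod_eq_single o, hy o _ hi.symm hj.symm]
    intro r hr
    by_cases hri : r = i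
    · subst hri
      rw [hyi, h.1, Pi.single_eq_same]
    · by_cases hrj : r = j
      · subst hrj
        rw [hyj, h.2.1, Pi.single_eq_same]
      · rw [hy r _ hri hrj, arrow_of_ne o r _ hr, if_pos (h.2.2 r hri hrj hr)]
  · by_cases h1 : σ i = a
    · by_cases h2 : σ j = b
      · have h' : ∃ r, r ≠ i ∧ r ≠ j ∧ r ≠ o ∧ ¬ (σ r = r ∨ σ r = o) := by
          by_contra hcon
          push Not at hcon
          refine h ⟨h1, h2, fun r hr1 hr2 hr3 => ?_⟩
          by_contra h3
          exact h3 (by simpa [or_iff_not_imp_left] using hcon r hr1 hr2 hr3)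
        obtain ⟨r, hr1, hr2, hr3, h3⟩ := h'
        refine Finset.prod_eq_zero (Finset.mem_univ r) ?_
        rw [hy r _ hr1 hr2, arrow_of_ne o r _ hr3, if_neg h3]
      · refine Finset.prod_eq_zero (Finset.mem_univ j) ?_
        rw [hyj, Pi.single_eq_of_ne h2]
    · refine Finset.prod_eq_zero (Finset.mem_univ i) ?_
      rw [hyi, Pi.single_eq_of_ne h1]

theorem hess_arrow_swap (o i a : N) (hia : i ≠ a) (hi : i ≠ o) (ha : a ≠ o) :
    hess (arrow N K o) (i, a) (a, i) = -2 := by
  rw [hess_arrow o i a a i hia hi ha]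
  have hoS : o ∉ ({i, a} : Finset N) := by simp [hi.symm, ha.symm]
  have h1 := sum_G (K := K) ({i, a} : Finset N) (Equiv.swap i a)
    (fun r hr => Equiv.swap_apply_of_ne_of_ne (by rintro rfl; simp at hr)
      (by rintro rfl; simp at hr)) o hoS (arrow N K o o)
  have h2 : Finset.univ.filter (fun σ : Equiv.Perm N =>
      σ i = a ∧ σ a = i ∧ ∀ r, r ≠ i → r ≠ a → r ≠ o → (σ r = r ∨ σ r = o)) =
      Finset.univ.filter (fun σ : Equiv.Perm N =>
        (∀ r ∈ ({i, a} : Finset N), σ r = Equiv.swap i a r) ∧
      ∀ r, r ∉ ({i, a} : Finset N) → r ≠ o → (σ r = r ∨ σ r = o)) := by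
    ext σ
    simp only [Finset.mem_filter, Finset.mem_univ, true_and, Finset.mem_insert,
      Finset.mem_singleton, not_or, forall_eq_or_imp, forall_eq, Equiv.swap_apply_left,
      Equiv.swap_apply_right, and_imp, and_assoc]
  rw [h2, h1]
  have ho : o ∈ ({i, a} : Finset N)ᶜ := by
    rw [Finset.mem_compl]
    exact hoS
  have hcard : 3 ≤ Fintype.card N := by
    have h3 : ({o, i, a} : Finset N).card ≤ Fintype.card N := Finset.card_le_univ _
    rwa [Finset.card_insert_of_notMem hoS, Finset.card_pair hia] at h3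
  rw [← Finset.add_sum_erase _ _ ho, arrow_oo,
    Finset.sum_congr rfl (g := fun _ => (1 : K)) (fun c hc => arrow_o o c (Finset.ne_of_mem_erase hc)),
    Finset.sum_const, Finset.card_erase_of_mem ho, Finset.card_compl, Finset.card_pair hia,
    nsmul_eq_mul, mul_one, Nat.sub_sub, Nat.cast_sub hcard]
  push_cast
  ring

theorem hess_arrow_row (o i a a' : N) (hia : i ≠ a) (hia' : i ≠ a') (haa' : a ≠ a') (hi : i ≠ o)
    (ha : a ≠ o) (ha' : a' ≠ o) :
    hess (arrow N K o) (i, a) (a', i) = 1 := by
  rw [hess_arrow o i a' a i hia' hi ha']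
  let π : Equiv.Perm N := Equiv.swap i a * (Equiv.swap a o * Equiv.swap o a')
  have hπi : π i = a := by
    simp only [π, Equiv.Perm.mul_apply]
    rw [Equiv.swap_apply_of_ne_of_ne hi hia', Equiv.swap_apply_of_ne_of_ne hia hi,
      Equiv.swap_apply_left]
  have hπa : π a = o := by
    simp only [π, Equiv.Perm.mul_apply]
    rw [Equiv.swap_apply_of_ne_of_ne ha haa', Equiv.swap_apply_left,
      Equiv.swap_apply_of_ne_of_ne hi.symm ha.symm]
  have hπo : π o = a' := by
    simp only [π, Equiv.Perm.mul_apply]
    rw [Equiv.swap_apply_left, Equiv.swap_apply_of_ne_of_ne haa'.symm ha',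
      Equiv.swap_apply_of_ne_of_ne hia'.symm haa'.symm]
  have hπa' : π a' = i := by
    simp only [π, Equiv.Perm.mul_apply]
    rw [Equiv.swap_apply_right, Equiv.swap_apply_right, Equiv.swap_apply_right]
  have hπr : ∀ r, r ≠ i → r ≠ a → r ≠ a' → r ≠ o → π r = r := by
    intro r h1 h2 h3 h4
    simp only [π, Equiv.Perm.mul_apply]
    rw [Equiv.swap_apply_of_ne_of_ne h4 h3, Equiv.swap_apply_of_ne_of_ne h2 h4,
      Equiv.swap_apply_of_ne_of_ne h1 h2]
  have h2 : Finset.univ.filter (fun σ : Equiv.Perm N =>
      σ i = a ∧ σ a' = i ∧ ∀ r, r ≠ i → r ≠ a' → r ≠ o → (σ r = r ∨ σ r = o)) = {π} := by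
    ext σ
    simp only [Finset.mem_filter, Finset.mem_univ, true_and, Finset.mem_singleton]
    constructor
    · rintro ⟨h1, h3, h4⟩
      have h5 : σ a = o := by
        rcases h4 a hia.symm haa' ha with h6 | h6
        · exact absurd (σ.injective (h1.trans h6.symm)) hia
        · exact h6
      have h7 : ∀ r, r ≠ i → r ≠ a → r ≠ a' → r ≠ o → σ r = r := by
        intro r hr1 hr2 hr3 hr4
        rcases h4 r hr1 hr3 hr4 with h6 | h6
        · exact h6
        · exact absurd (σ.injective (h6.trans h5.symm)) hr2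
      have h8 : σ o = a' := by
        obtain ⟨y, hy⟩ := σ.surjective a'
        by_cases hyo : y = o
        · rw [← hyo, hy]
        · exfalso
          by_cases hyi : y = i
          · rw [hyi, h1] at hy
            exact haa' hy
          · by_cases hya : y = a
            · rw [hya, h5] at hy
              exact ha' hy.symm
            · by_cases hya' : y = a'
              · rw [hya', h3] at hy
                exact hia' hy
              · rw [h7 y hyi hya hya' hyo] at hy
                exact hya' hy
      refine Equiv.ext fun r => ?_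
      by_cases hri : r = i
      · rw [hri, h1, hπi]
      · by_cases hra : r = a
        · rw [hra, h5, hπa]
        · by_cases hra' : r = a'
          · rw [hra', h3, hπa']
          · by_cases hro : r = o
            · rw [hro, h8, hπo]
            · rw [h7 r hri hra hra' hro, hπr r hri hra hra' hro]
    · rintro rfl
      refine ⟨hπi, hπa', fun r hr1 hr2 hr3 => ?_⟩
      by_cases hra : r = a
      · right
        rw [hra, hπa]
      · left
        exact hπr r hr1 hra hr2 hr3
  rw [h2, Finset.sum_singleton, hπo, arrow_o o a' ha']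

theorem hess_arrow_zero (o i a i' a' : N) (hia : i ≠ a) (hia' : i' ≠ a') (hii' : i ≠ i')
    (haa' : a ≠ a') (hi : i ≠ o) (ha : a ≠ o) (hi' : i' ≠ o) (ha' : a' ≠ o) :
    hess (arrow N K o) (i, a) (a', i') = 0 := by
  by_cases h : i = a'
  · rw [hess, if_pos h]
  · rw [hess_arrow o i a' a i' h hi ha']
    refine Finset.sum_eq_zero fun σ hσ => ?_
    exfalso
    obtain ⟨-, h1, h2, h3⟩ := Finset.mem_filter.mp hσ
    by_cases hai' : a = i'
    · rw [← hai'] at h2
      exact h (σ.injective (h1.trans h2.symm))
    · have h4 : σ a = o := by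
        rcases h3 a hia.symm haa' ha with h6 | h6
        · exact absurd (σ.injective (h1.trans h6.symm)) hia
        · exact h6
      have h5 : σ i' = o := by
        rcases h3 i' hii'.symm hia' hi' with h6 | h6
        · exact absurd (σ.injective (h6.trans h2.symm)) hia'
        · exact h6
      exact hai' (σ.injective (h4.trans h5.symm))

theorem hess_arrow_all (o : N) (p q : N × N) (hp : p.1 ≠ p.2) (hq : q.1 ≠ q.2) (hp1 : p.1 ≠ o)
    (hp2 : p.2 ≠ o) (hq1 : q.1 ≠ o) (hq2 : q.2 ≠ o) :
    hess (arrow N K o) p q.swap = (if p.1 = q.1 then 1 else 0) + (if p.2 = q.2 then 1 else 0) -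
      (if p = q then 4 else 0) := by
  obtain ⟨i, a⟩ := p
  obtain ⟨i', a'⟩ := q
  simp only [Prod.swap_prod_mk, Prod.mk.injEq] at *
  by_cases h1 : i = i'
  · by_cases h2 : a = a'
    · subst h1; subst h2
      rw [hess_arrow_swap o i a hp hp1 hp2]
      simp
      ring
    · subst h1
      rw [hess_arrow_row o i a a' hp hq h2 hp1 hp2 hq2]
      simp [h2]
  · by_cases h2 : a = a'
    · subst h2
      rw [hess_symm, hess_arrow_row o a i' i hq.symm hp.symm (Ne.symm h1) hp2 hq1 hp1]
      simp [h1]
    · rw [hess_arrow_zero o i a i' a' hp hq h1 h2 hp1 hp2 hq1 hq2]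
      simp [h1, h2]

end Pool.Agent.Helper20.MR
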