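import Mathlib
import Pool.Agent.Helper20.MR.Count

/-! Averaging over the permutations of the rows. -/

namespace Pool.Agent.Helper20.MR

variable {N : Type*} [Fintype N] [DecidableEq N]

/-- The positions in `E` whose transposed position is not in `E`, after the row permutation `ρ`. -/
def Qset (E : Finset (N × N)) (o : N) (ρ : Equiv.Perm N) : Finset (N × N) :=
  Finset.univ.filter fun x => x.1 ≠ x.2 ∧ x.1 ≠ o ∧ x.2 ≠ o ∧ (ρ x.1, x.2) ∈ E ∧ (ρ x.2, x.1) ∉ E

/-- Pairs of positions in `E` and outside of `E` in general position. -/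
def split (E : Finset (N × N)) (o : N) : Finset ((N × N) × (N × N)) :=
  (E ×ˢ Eᶜ).filter fun z => z.1.1 ≠ z.2.1 ∧ z.1.2 ≠ z.2.2 ∧ z.1.2 ≠ o ∧ z.2.2 ≠ o

theorem sum_card_Qset (E : Finset (N × N)) (o : N) (κ : ℕ)
    (hκ : ∀ i j a b : N, i ≠ j → a ≠ b → cnt2 i j a b = κ) :
    ∑ ρ : Equiv.Perm N, (Qset E o ρ).card = κ * (split E o).card := by
  rw [← Finset.card_sigma]
  rw [Finset.card_eq_sum_card_fiberwise
    (f := fun z : (_ : Equiv.Perm N) × (N × N) => ((z.1 z.2.1, z.2.2), (z.1 z.2.2, z.2.1)))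
    (t := split E o)]
  · rw [Finset.sum_congr rfl (g := fun _ => κ), Finset.sum_const, smul_eq_mul, mul_comm]
    intro z hz
    rw [split, Finset.mem_filter, Finset.mem_product, Finset.mem_compl] at hz
    obtain ⟨⟨h1, h2⟩, h3, h4, h5, h6⟩ := hz
    rw [← hκ z.2.2 z.1.2 z.1.1 z.2.1 (Ne.symm h4) h3, cnt2]
    refine Finset.card_nbij' (fun y => y.1) (fun σ => ⟨σ, (z.2.2, z.1.2)⟩) ?_ ?_ ?_ ?_
    · intro y hy
      simp only [Finset.coe_filter, Finset.mem_sigma, Finset.mem_univ, true_and,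
        Set.mem_ofPred_eq] at hy ⊢
      obtain ⟨-, hy⟩ := hy
      rw [← hy]
      exact ⟨rfl, rfl⟩
    · intro σ hσ
      simp only [Finset.coe_filter, Finset.mem_sigma, Finset.mem_univ, true_and,
        Set.mem_ofPred_eq, Qset, Finset.mem_filter] at hσ ⊢
      obtain ⟨g1, g2⟩ := hσ
      rw [g1, g2]
      exact ⟨⟨Ne.symm h4, h6, h5, h1, h2⟩, rfl⟩
    · intro y hy
      simp only [Finset.coe_filter, Finset.mem_sigma, Finset.mem_univ, true_and,
        Set.mem_ofPred_eq] at hy
      obtain ⟨-, hy⟩ := hy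
      rw [← hy]
    · intro σ _
      rfl
  · intro y hy
    simp only [Finset.coe_sigma, Set.mem_sigma_iff, Finset.coe_univ, Set.mem_univ, true_and,
      Finset.mem_coe, Qset, Finset.mem_filter, Finset.mem_univ] at hy
    simp only [split, Finset.coe_filter, Finset.mem_product, Finset.mem_compl, Set.mem_ofPred_eq]
    obtain ⟨h1, h2, h3, h4, h5⟩ := hy
    exact ⟨⟨h4, h5⟩, fun h => h1 (y.1.injective h), Ne.symm h1, h3, h2⟩

theorem card_perm_eq (κ : ℕ) (hκ : ∀ i j a b : N, i ≠ j → a ≠ b → cnt2 i j a b = κ)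
    (i j : N) (hij : i ≠ j) :
    Fintype.card (Equiv.Perm N) = Fintype.card N * (Fintype.card N - 1) * κ := by
  rw [← Finset.card_univ, Finset.card_eq_sum_card_fiberwise
    (f := fun σ : Equiv.Perm N => (σ i, σ j))
    (t := (Finset.univ : Finset (N × N)).filter fun p => p.1 ≠ p.2)]
  · rw [Finset.sum_congr rfl (g := fun _ => κ), Finset.sum_const, smul_eq_mul]
    · congr 1
      have h1 : (Finset.univ : Finset (N × N)).filter (fun p => p.1 ≠ p.2) =
          (Finset.univ : Finset N).offDiag := by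
        ext p
        simp [Finset.mem_offDiag]
      rw [h1, Finset.offDiag_card, Finset.card_univ, Nat.mul_sub, mul_one]
    · intro p hp
      rw [Finset.mem_filter] at hp
      rw [← hκ i j p.1 p.2 hij hp.2, cnt2]
      congr 1
      ext σ
      simp [Prod.ext_iff]
  · intro σ _
    simp only [Finset.coe_filter, Finset.mem_univ, true_and, Set.mem_ofPred_eq]
    exact fun h => hij (σ.injective h)

theorem card_split (E : Finset (N × N)) (o : N) :
    E.card * Eᶜ.card ≤ (split E o).card + 2 * Fintype.card N ^ 3 := by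
  set n := Fintype.card N with hn
  have hE : E.card + Eᶜ.card = n * n := by
    rw [Finset.card_add_card_compl, Fintype.card_prod]
  -- the four kinds of bad pairs
  have hrow : ∀ A B : Finset (N × N), ((A ×ˢ B).filter fun z => z.1.1 = z.2.1).card ≤
      A.card * n := by
    intro A B
    have h1 : ((A ×ˢ B).filter fun z => z.1.1 = z.2.1).card ≤
        (A ×ˢ (Finset.univ : Finset N)).card := by
      refine Finset.card_le_card_of_injOn (fun z => (z.1, z.2.2)) ?_ ?_
      · intro z hz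
        simp only [Finset.coe_filter, Finset.mem_product, Set.mem_ofPred_eq] at hz
        simp [hz.1.1]
      · intro z hz z' hz' h
        simp only [Finset.coe_filter, Finset.mem_product, Set.mem_ofPred_eq] at hz hz'
        simp only [Prod.mk.injEq] at h
        refine Prod.ext h.1 (Prod.ext ?_ h.2)
        rw [← hz.2, ← hz'.2, h.1]
    rwa [Finset.card_product, Finset.card_univ] at h1
  have hcol : ∀ A B : Finset (N × N), ((A ×ˢ B).filter fun z => z.1.2 = z.2.2).card ≤
      A.card * n := by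
    intro A B
    have h1 : ((A ×ˢ B).filter fun z => z.1.2 = z.2.2).card ≤
        (A ×ˢ (Finset.univ : Finset N)).card := by
      refine Finset.card_le_card_of_injOn (fun z => (z.1, z.2.1)) ?_ ?_
      · intro z hz
        simp only [Finset.coe_filter, Finset.mem_product, Set.mem_ofPred_eq] at hz
        simp [hz.1.1]
      · intro z hz z' hz' h
        simp only [Finset.coe_filter, Finset.mem_product, Set.mem_ofPred_eq] at hz hz'
        simp only [Prod.mk.injEq] at h
        refine Prod.ext h.1 (Prod.ext h.2 ?_)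
        rw [← hz.2, ← hz'.2, h.1]
    rwa [Finset.card_product, Finset.card_univ] at h1
  have hswap : ∀ (A B : Finset (N × N)) (P : N × N → N × N → Prop) [∀ x y, Decidable (P x y)],
      ((A ×ˢ B).filter fun z => P z.1 z.2).card = ((B ×ˢ A).filter fun z => P z.2 z.1).card := by
    intro A B P _
    refine Finset.card_nbij' Prod.swap Prod.swap ?_ ?_ ?_ ?_
    · intro z hz
      simp only [Finset.coe_filter, Finset.mem_product, Set.mem_ofPred_eq] at hz ⊢
      exact ⟨⟨hz.1.2, hz.1.1⟩, hz.2⟩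
    · intro z hz
      simp only [Finset.coe_filter, Finset.mem_product, Set.mem_ofPred_eq] at hz ⊢
      exact ⟨⟨hz.1.2, hz.1.1⟩, hz.2⟩
    · intro z _
      rfl
    · intro z _
      rfl
  have h1 : ((E ×ˢ Eᶜ).filter fun z => z.1.1 = z.2.1).card ≤ E.card * n := hrow _ _
  have h1' : ((E ×ˢ Eᶜ).filter fun z => z.1.1 = z.2.1).card ≤ Eᶜ.card * n := by
    rw [hswap E Eᶜ (fun x y => x.1 = y.1)]
    refine le_trans (le_of_eq ?_) (hrow Eᶜ E)
    congr 1
    ext z
    simp [eq_comm]
  have h2 : ((E ×ˢ Eᶜ).filter fun z => z.1.2 = z.2.2).card ≤ E.card * n := hcol _ _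
  have h2' : ((E ×ˢ Eᶜ).filter fun z => z.1.2 = z.2.2).card ≤ Eᶜ.card * n := by
    rw [hswap E Eᶜ (fun x y => x.2 = y.2)]
    refine le_trans (le_of_eq ?_) (hcol Eᶜ E)
    congr 1
    ext z
    simp [eq_comm]
  have hline : ∀ A B : Finset (N × N), ((A ×ˢ B).filter fun z => z.1.2 = o).card ≤
      n * B.card := by
    intro A B
    have h1 : ((A ×ˢ B).filter fun z => z.1.2 = o).card ≤
        ((Finset.univ : Finset N) ×ˢ B).card := by
      refine Finset.card_le_card_of_injOn (fun z => (z.1.1, z.2)) ?_ ?_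
      · intro z hz
        simp only [Finset.coe_filter, Finset.mem_product, Set.mem_ofPred_eq] at hz
        simp [hz.1.2]
      · intro z hz z' hz' h
        simp only [Finset.coe_filter, Finset.mem_product, Set.mem_ofPred_eq] at hz hz'
        simp only [Prod.mk.injEq] at h
        refine Prod.ext (Prod.ext h.1 ?_) h.2
        rw [hz.2, hz'.2]
    rwa [Finset.card_product, Finset.card_univ] at h1
  have h3 : ((E ×ˢ Eᶜ).filter fun z => z.1.2 = o).card ≤ n * Eᶜ.card := hline _ _
  have h4 : ((E ×ˢ Eᶜ).filter fun z => z.2.2 = o).card ≤ n * E.card := by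
    rw [hswap E Eᶜ (fun x y => y.2 = o)]
    exact hline Eᶜ E
  have h5 : (E ×ˢ Eᶜ) ⊆ split E o ∪ (((E ×ˢ Eᶜ).filter fun z => z.1.1 = z.2.1) ∪
      (((E ×ˢ Eᶜ).filter fun z => z.1.2 = z.2.2) ∪ (((E ×ˢ Eᶜ).filter fun z => z.1.2 = o) ∪
      ((E ×ˢ Eᶜ).filter fun z => z.2.2 = o)))) := by
    intro z hz
    simp only [split, Finset.mem_union, Finset.mem_filter, hz, true_and]
    tauto
  have h6 := Finset.card_le_card h5
  have h7 : ∀ A B : Finset ((N × N) × (N × N)), (A ∪ B).card ≤ A.card + B.card :=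
    fun A B => Finset.card_union_le A B
  have h8 := (h6.trans (h7 _ _))
  have h9 := h7 ((E ×ˢ Eᶜ).filter fun z => z.1.1 = z.2.1)
      (((E ×ˢ Eᶜ).filter fun z => z.1.2 = z.2.2) ∪ (((E ×ˢ Eᶜ).filter fun z => z.1.2 = o) ∪
      ((E ×ˢ Eᶜ).filter fun z => z.2.2 = o)))
  have h10 := h7 ((E ×ˢ Eᶜ).filter fun z => z.1.2 = z.2.2)
    (((E ×ˢ Eᶜ).filter fun z => z.1.2 = o) ∪ ((E ×ˢ Eᶜ).filter fun z => z.2.2 = o))
  have h11 := h7 ((E ×ˢ Eᶜ).filter fun z => z.1.2 = o) ((E ×ˢ Eᶜ).filter fun z => z.2.2 = o)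
  rw [Finset.card_product] at h8
  have h12 : E.card * n + Eᶜ.card * n = n ^ 3 := by
    rw [← add_mul, hE]
    ring
  have h13 : n * Eᶜ.card + n * E.card = n ^ 3 := by
    rw [← mul_add, add_comm Eᶜ.card, hE]
    ring
  omega

/-- A row permutation for which many positions are separated from their transposes. -/
theorem exists_perm_Qset (hN : 2 ≤ Fintype.card N) (E : Finset (N × N)) (o : N) :
    ∃ ρ : Equiv.Perm N, E.card * Eᶜ.card ≤
      Fintype.card N ^ 2 * (Qset E o ρ).card + 2 * Fintype.card N ^ 3 := by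
  obtain ⟨i, j, hij⟩ := Fintype.exists_pair_of_one_lt_card (α := N) (by omega)
  obtain ⟨κ, hκ⟩ : ∃ κ, ∀ i j a b : N, i ≠ j → a ≠ b → cnt2 i j a b = κ :=
    ⟨cnt2 i j i j, fun i' j' a b h h' => cnt2_eq _ _ _ _ _ _ _ _ h h' hij hij⟩
  have hκ0 : 0 < κ := by
    rw [← hκ i j i j hij hij, cnt2, Finset.card_pos]
    exact ⟨1, by simp⟩
  have h1 := sum_card_Qset E o κ hκ
  have h2 := card_perm_eq κ hκ i j hij
  have h3 := card_split E o
  by_contra hcon
  push Not at hcon
  set n := Fintype.card N with hn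
  have h4 : ∀ ρ : Equiv.Perm N, n * (n - 1) * (Qset E o ρ).card < (split E o).card := by
    intro ρ
    have h5 := hcon ρ
    have h6 : n * (n - 1) * (Qset E o ρ).card ≤ n ^ 2 * (Qset E o ρ).card := by
      refine Nat.mul_le_mul_right _ ?_
      rw [sq]
      exact Nat.mul_le_mul_left _ (Nat.sub_le _ _)
    omega
  have h7 : ∑ ρ : Equiv.Perm N, n * (n - 1) * (Qset E o ρ).card <
      ∑ _ρ : Equiv.Perm N, (split E o).card :=
    Finset.sum_lt_sum_of_nonempty Finset.univ_nonempty fun ρ _ => h4 ρ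
  rw [← Finset.mul_sum, h1, Finset.sum_const, Finset.card_univ, h2, smul_eq_mul] at h7
  have h8 : n * (n - 1) * (κ * (split E o).card) = n * (n - 1) * κ * (split E o).card := by ring
  omega

end Pool.Agent.Helper20.MR
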