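import Mathlib

/-! Derivations with prescribed values on algebraically independent elements. -/

namespace Pool.Agent.Helper20.MR

open MvPolynomial

/-- A ring homomorphism into dual numbers lifting the identity gives a derivation. -/
noncomputable def derivOfHom {K L : Type*} [Field K] [Field L] [Algebra K L]
    (Φ : L →+* DualNumber L) (h1 : ∀ y, TrivSqZeroExt.fst (Φ y) = y)
    (h2 : ∀ k : K, Φ (algebraMap K L k) = TrivSqZeroExt.inl (algebraMap K L k)) :
    Derivation K L L :=
  Derivation.mk'
    { toFun := fun y => TrivSqZeroExt.snd (Φ y)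
      map_add' := fun a b => by simp
      map_smul' := fun k a => by
        rw [Algebra.smul_def, map_mul, h2, TrivSqZeroExt.snd_mul]
        simp [Algebra.smul_def] }
    (fun a b => by
      simp only [LinearMap.coe_mk, AddHom.coe_mk, map_mul, TrivSqZeroExt.snd_mul, h1]
      simp [mul_comm])

theorem derivOfHom_apply {K L : Type*} [Field K] [Field L] [Algebra K L]
    (Φ : L →+* DualNumber L) (h1 : ∀ y, TrivSqZeroExt.fst (Φ y) = y)
    (h2 : ∀ k : K, Φ (algebraMap K L k) = TrivSqZeroExt.inl (algebraMap K L k)) (y : L) :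
    derivOfHom Φ h1 h2 y = TrivSqZeroExt.snd (Φ y) := rfl

open scoped IntermediateField.algebraAdjoinAdjoin in
theorem exists_derivation_basis {K L ι : Type*} [Field K] [CharZero K] [Field L] [Algebra K L]
    (v : ι → L) (hv : IsTranscendenceBasis K v) (c : ι → L) :
    ∃ D : Derivation K L L, ∀ s, D (v s) = c s := by
  classical
  let R := Algebra.adjoin K (Set.range v)
  let F := IntermediateField.adjoin K (Set.range v)
  have : CharZero L := charZero_of_injective_algebraMap (algebraMap K L).injective
  have : CharZero F := charZero_of_injective_algebraMap (algebraMap K F).injective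
  have hal : Algebra.IsAlgebraic F L := hv.isAlgebraic_field
  have : Algebra.IsSeparable F L := inferInstance
  have h1 : Algebra.FormallySmooth R F := .of_isLocalization (nonZeroDivisors _)
  have h2 : Algebra.FormallyEtale F L := Algebra.FormallyEtale.of_isSeparable F L
  have : IsScalarTower R F L := inferInstance
  have h3 : Algebra.FormallySmooth R L := .comp R F L
  -- the algebra structure on dual numbers
  let ψ₀ : MvPolynomial ι K →ₐ[K] DualNumber L :=
    aeval (fun s => TrivSqZeroExt.inl (v s) + TrivSqZeroExt.inr (c s))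
  let ψ : R →ₐ[K] DualNumber L := ψ₀.comp (hv.1.aevalEquiv.symm : R →ₐ[K] MvPolynomial ι K)
  have hψ : ∀ p : MvPolynomial ι K, ψ (hv.1.aevalEquiv p) = ψ₀ p := by
    intro p
    simp [ψ]
  have hfst : ∀ r : R, TrivSqZeroExt.fst (ψ r) = (r : L) := by
    intro r
    obtain ⟨p, rfl⟩ := hv.1.aevalEquiv.surjective r
    rw [hψ]
    have h4 : ((TrivSqZeroExt.fstHom K L L).comp ψ₀) = aeval v := by
      refine MvPolynomial.algHom_ext ?_
      intro s
      simp [ψ₀]
    have h5 : TrivSqZeroExt.fst (ψ₀ p) = (TrivSqZeroExt.fstHom K L L).comp ψ₀ p := rfl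
    rw [h5, h4]
    exact (hv.1.algebraMap_aevalEquiv p).symm
  have hvmem : ∀ s, v s ∈ R := fun s => Algebra.subset_adjoin ⟨s, rfl⟩
  have hv' : ∀ s, hv.1.aevalEquiv (X s) = (⟨v s, hvmem s⟩ : R) := by
    intro s
    apply Subtype.ext
    have := hv.1.algebraMap_aevalEquiv (X s)
    rw [aeval_X] at this
    exact this
  let algD : Algebra R (DualNumber L) := ψ.toRingHom.toAlgebra
  let g : DualNumber L →ₐ[R] L :=
    { (TrivSqZeroExt.fstHom K L L : DualNumber L →+* L) with
      commutes' := fun r => hfst r }
  have hg : Function.Surjective g := fun y => ⟨TrivSqZeroExt.inl y, rfl⟩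
  have hnil : IsNilpotent (RingHom.ker (g : DualNumber L →+* L)) := by
    refine ⟨2, (sq (RingHom.ker (g : DualNumber L →+* L))).trans ?_⟩
    rw [Ideal.zero_eq_bot, eq_bot_iff, Ideal.mul_le]
    intro a ha b hb
    have ha' : TrivSqZeroExt.fst a = 0 := ha
    have hb' : TrivSqZeroExt.fst b = 0 := hb
    rw [Ideal.mem_bot]
    ext
    · rw [TrivSqZeroExt.fst_mul, ha', zero_mul, TrivSqZeroExt.fst_zero]
    · rw [TrivSqZeroExt.snd_mul, ha', hb']
      simp
  let Φ : L →ₐ[R] DualNumber L :=
    Algebra.FormallySmooth.liftOfSurjective (AlgHom.id R L) g hg hnil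
  have hΦ : ∀ y, TrivSqZeroExt.fst (Φ y) = y := by
    intro y
    exact Algebra.FormallySmooth.liftOfSurjective_apply (AlgHom.id R L) g hg hnil y
  have hΦR : ∀ r : R, Φ (r : L) = ψ r := fun r => Φ.commutes r
  refine ⟨derivOfHom (K := K) Φ.toRingHom hΦ ?_, ?_⟩
  · intro k
    have h6 := hΦR (algebraMap K R k)
    have h7 : ((algebraMap K R k : R) : L) = algebraMap K L k := rfl
    rw [h7] at h6
    change Φ (algebraMap K L k) = _
    rw [h6, AlgHom.commutes]
    rfl
  · intro s
    rw [derivOfHom_apply]
    change TrivSqZeroExt.snd (Φ (v s)) = c s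
    have h6 := hΦR ⟨v s, hvmem s⟩
    change Φ (v s) = _ at h6
    rw [h6, ← hv' s, hψ]
    simp [ψ₀]

theorem exists_derivation {K L σ : Type*} [Field K] [CharZero K] [Field L] [Algebra K L]
    (x : σ → L) (hx : AlgebraicIndependent K x) (c : σ → L) :
    ∃ D : Derivation K L L, ∀ s, D (x s) = c s := by
  classical
  have hr : AlgebraicIndepOn K id (Set.range x) := hx.coe_range
  obtain ⟨t, hst, ht⟩ := exists_isTranscendenceBasis_superset hr
  have hinj := hx.injective
  let c' : t → L := fun y => if h : ∃ s, x s = y.1 then c h.choose else 0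
  obtain ⟨D, hD⟩ := exists_derivation_basis (fun y : t => (y : L)) ht c'
  refine ⟨D, fun s => ?_⟩
  have h1 := hD ⟨x s, hst ⟨s, rfl⟩⟩
  have hex : ∃ s', x s' = x s := ⟨s, rfl⟩
  have h2 : hex.choose = s := hinj hex.choose_spec
  rw [h1]
  simp only [c']
  rw [dif_pos hex, h2]

/-- The algebra homomorphism `y ↦ j y + e * j (D y)` for a square-zero element `e`. -/
noncomputable def expHom {K L S : Type*} [Field K] [Field L] [Algebra K L] [CommRing S]
    [Algebra K S] (j : L →ₐ[K] S) (e : S) (he : e * e = 0) (D : Derivation K L L) : L →ₐ[K] S :=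
  AlgHom.ofLinearMap
    { toFun := fun y => j y + e * j (D y)
      map_add' := fun a b => by simp only [map_add]; ring
      map_smul' := fun k a => by
        rw [Derivation.map_smul, map_smul, map_smul, RingHom.id_apply, smul_add, mul_smul_comm] }
    (by simp)
    (fun a b => by
      simp only [LinearMap.coe_mk, AddHom.coe_mk, Derivation.leibniz, map_mul, map_add,
        smul_eq_mul]
      have h : e * j (D a) * (e * j (D b)) = 0 := by
        calc _ = (e * e) * (j (D a) * j (D b)) := by ring
        _ = 0 := by rw [he, zero_mul]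
      calc j a * j b + e * (j a * j (D b) + j b * j (D a))
          = j a * j b + e * (j a * j (D b) + j b * j (D a)) + 0 := by rw [add_zero]
        _ = j a * j b + e * (j a * j (D b) + j b * j (D a)) + e * j (D a) * (e * j (D b)) := by
            rw [h]
        _ = _ := by ring)

theorem expHom_apply {K L S : Type*} [Field K] [Field L] [Algebra K L] [CommRing S]
    [Algebra K S] (j : L →ₐ[K] S) (e : S) (he : e * e = 0) (D : Derivation K L L) (y : L) :
    expHom j e he D y = j y + e * j (D y) := rfl

end Pool.Agent.Helper20.MR
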