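import Mathlib

/-! Zariski closures of sets of `K`-points and points of products with values in a `K`-algebra. -/

namespace Pool.Agent.Helper20.MR

open MvPolynomial

/-- `s` is an `S`-valued point of the Zariski closure of the set `Γ` of `K`-points. -/
def InClosure {K S κ : Type*} [Field K] [CommRing S] [Algebra K S]
    (Γ : Set (κ → K)) (s : κ → S) : Prop :=
  ∀ p : MvPolynomial κ K, (∀ γ ∈ Γ, eval γ p = 0) → aeval s p = 0

theorem aeval_algebraMap_comp {K S κ : Type*} [Field K] [CommRing S] [Algebra K S]
    (γ : κ → K) (p : MvPolynomial κ K) :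
    aeval (fun k => algebraMap K S (γ k)) p = algebraMap K S (eval γ p) := by
  have h : (Algebra.ofId K S).comp (aeval γ) = aeval (fun k => algebraMap K S (γ k)) :=
    MvPolynomial.comp_aeval _ _
  rw [← h, AlgHom.comp_apply, MvPolynomial.aeval_eq_eval]
  rfl

theorem inClosure_of_mem {K S κ : Type*} [Field K] [CommRing S] [Algebra K S]
    (Γ : Set (κ → K)) (γ : κ → K) (hγ : γ ∈ Γ) :
    InClosure Γ (fun k => algebraMap K S (γ k)) := by
  intro p hp
  rw [aeval_algebraMap_comp, hp γ hγ, map_zero]

theorem InClosure.map {K S T κ : Type*} [Field K] [CommRing S] [Algebra K S]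
    [CommRing T] [Algebra K T] (Γ : Set (κ → K)) (s : κ → S) (h : InClosure Γ s)
    (φ : S →ₐ[K] T) : InClosure Γ (fun k => φ (s k)) := by
  intro p hp
  have h1 : aeval (fun k => φ (s k)) p = φ (aeval s p) := by
    rw [← AlgHom.comp_apply, MvPolynomial.comp_aeval]
  rw [h1, h p hp, map_zero]

theorem InClosure.eval_eq_zero {K S κ : Type*} [Field K] [CommRing S] [Algebra K S]
    (Γ : Set (κ → K)) (s : κ → S) (hs : InClosure Γ s) (P : MvPolynomial κ S)
    (hP : ∀ γ ∈ Γ, eval (fun k => algebraMap K S (γ k)) P = 0) : eval s P = 0 := by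
  classical
  let b := Module.Basis.ofVectorSpace K S
  -- coordinate polynomials
  let Pc : (Module.Basis.ofVectorSpaceIndex K S) → MvPolynomial κ K := fun i =>
    ∑ m ∈ P.support, monomial m (b.coord i (coeff m P))
  have hPc : ∀ i, ∀ γ ∈ Γ, eval γ (Pc i) = 0 := by
    intro i γ hγ
    have h1 := hP γ hγ
    rw [MvPolynomial.eval_eq] at h1
    have h2 := congrArg (b.coord i) h1
    rw [map_zero, map_sum] at h2
    rw [← h2]
    simp only [Pc, map_sum, eval_monomial]
    refine Finset.sum_congr rfl fun m _ => ?_
    rw [show (coeff m P * ∏ j ∈ m.support, (algebraMap K S (γ j)) ^ m j)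
      = (∏ j ∈ m.support, (γ j) ^ m j) • coeff m P by
        rw [Algebra.smul_def, map_prod]
        simp only [map_pow]
        ring]
    rw [map_smul, smul_eq_mul, mul_comm, Finsupp.prod]
  have hPs : ∀ i, aeval s (Pc i) = 0 := fun i => hs _ (hPc i)
  rw [MvPolynomial.eval_eq]
  -- expand coefficients in the basis
  have key : ∀ m ∈ P.support, coeff m P * ∏ j ∈ m.support, s j ^ m j =
      ∑ i ∈ P.support.biUnion (fun m => (b.repr (coeff m P)).support),
        (b i) * (aeval s (monomial m (b.coord i (coeff m P)))) := by
    intro m hm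
    have h3 : coeff m P = ∑ i ∈ P.support.biUnion (fun m => (b.repr (coeff m P)).support),
        (b.repr (coeff m P) i) • b i := by
      conv_lhs => rw [← b.linearCombination_repr (coeff m P)]
      rw [Finsupp.linearCombination_apply, Finsupp.sum]
      refine Finset.sum_subset ?_ ?_
      · intro i hi
        exact Finset.mem_biUnion.mpr ⟨m, hm, hi⟩
      · intro i _ hi
        rw [Finsupp.notMem_support_iff] at hi
        rw [hi, zero_smul]
    conv_lhs => rw [h3]
    rw [Finset.sum_mul]
    refine Finset.sum_congr rfl fun i _ => ?_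
    rw [aeval_monomial, Finsupp.prod, Module.Basis.coord_apply, Algebra.smul_def]
    ring
  rw [Finset.sum_congr rfl key, Finset.sum_comm]
  refine Finset.sum_eq_zero fun i _ => ?_
  rw [← Finset.mul_sum, ← map_sum]
  change b i * aeval s (Pc i) = 0
  rw [hPs, mul_zero]

/-- A polynomial over `K` vanishing on a product of sets of `K`-points vanishes at every
tuple of `S`-points of their closures. -/
theorem aeval_prod_eq_zero {K S ι : Type*} [Field K] [CommRing S] [Algebra K S] [Fintype ι]
    [DecidableEq ι] {κ : ι → Type*} (Γ : ∀ i, Set (κ i → K)) (s : ∀ i, κ i → S)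
    (hs : ∀ i, InClosure (Γ i) (s i)) (F : MvPolynomial (Σ i, κ i) K)
    (hF : ∀ γ : ∀ i, κ i → K, (∀ i, γ i ∈ Γ i) → eval (fun k : Σ i, κ i => γ k.1 k.2) F = 0) :
    aeval (fun k : Σ i, κ i => s k.1 k.2) F = 0 := by
  classical
  have main : ∀ T : Finset ι, ∀ γ : ∀ i, κ i → K, (∀ i, i ∉ T → γ i ∈ Γ i) →
      aeval (fun k : Σ i, κ i => if k.1 ∈ T then s k.1 k.2 else algebraMap K S (γ k.1 k.2)) F
        = 0 := by
    intro T
    induction T using Finset.induction_on with
    | empty =>
      intro γ hγ
      simp only [Finset.notMem_empty, if_false]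
      rw [aeval_algebraMap_comp (fun k : Σ i, κ i => γ k.1 k.2),
        hF γ (fun i => hγ i (Finset.notMem_empty i)), map_zero]
    | insert i₀ T hi₀ ih =>
      intro γ hγ
      -- polynomial in the variables of part `i₀`
      let P : MvPolynomial (κ i₀) S := aeval (fun k : Σ i, κ i =>
        if h : k.1 = i₀ then (X (h ▸ k.2) : MvPolynomial (κ i₀) S)
        else if k.1 ∈ T then C (s k.1 k.2) else C (algebraMap K S (γ k.1 k.2))) F
      have hev : ∀ t : κ i₀ → S, eval t P = aeval (fun k : Σ i, κ i =>
          if h : k.1 = i₀ then t (h ▸ k.2)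
          else if k.1 ∈ T then s k.1 k.2 else algebraMap K S (γ k.1 k.2)) F := by
        intro t
        have h2 : eval t P = ((aeval t : MvPolynomial (κ i₀) S →ₐ[S] S).restrictScalars K) P := by
          rw [AlgHom.restrictScalars_apply, MvPolynomial.aeval_eq_eval]
        rw [h2]
        simp only [P]
        rw [← AlgHom.comp_apply, MvPolynomial.comp_aeval]
        congr 2
        funext k
        simp only [AlgHom.restrictScalars_apply]
        split_ifs
        · simp
        · simp
        · simp
      have h3 : eval (s i₀) P = 0 := by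
        refine InClosure.eval_eq_zero (Γ i₀) (s i₀) (hs i₀) P ?_
        intro γ₀ hγ₀
        rw [hev]
        have h4 := ih (Function.update γ i₀ γ₀) (by
          intro i hi
          by_cases h : i = i₀
          · subst h; simpa using hγ₀
          · rw [Function.update_of_ne h]
            exact hγ i (by simp [h, hi]))
        rw [← h4]
        congr 2
        funext k
        obtain ⟨i, k⟩ := k
        by_cases h : i = i₀
        · subst h
          simp [hi₀]
        · simp [h]
      rw [hev] at h3
      rw [← h3]
      congr 2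
      funext k
      obtain ⟨i, k⟩ := k
      by_cases h : i = i₀
      · subst h
        simp
      · simp [h]
  have := main Finset.univ (fun _ _ => 0) (by simp)
  simpa using this

end Pool.Agent.Helper20.MR
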