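import Mathlib
import Pool.Agent.Helper20.MR.Ext

/-! Generic points of closures of graphs of arbitrary functions (Nullstellensatz). -/

namespace Pool.Agent.Helper20.MR

open MvPolynomial

attribute [local instance] MvPolynomial.algebraMvPolynomial

theorem eq_zero_of_nat {K σ : Type*} [Field K] [CharZero K] (d : MvPolynomial σ K)
    (h : ∀ y : σ → ℕ, eval (fun s => (y s : K)) d = 0) : d = 0 := by
  refine MvPolynomial.funext_set (fun _ => Set.range (fun n : ℕ => (n : K)))
    (fun _ => Set.infinite_range_of_injective Nat.cast_injective) ?_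
  intro x hx
  rw [map_zero]
  choose y hy using fun s => hx s (Set.mem_univ s)
  have : x = fun s => (y s : K) := by
    funext s
    exact (hy s).symm
  rw [this]
  exact h y

/-- View polynomials in two groups of variables as iterated polynomials. -/
noncomputable def toIter (K α σ : Type*) [Field K] :
    MvPolynomial (α ⊕ σ) K →+* MvPolynomial α (MvPolynomial σ K) :=
  eval₂Hom (C.comp C) (Sum.elim X (fun s => C (X s)))

theorem eval_toIter {K α σ : Type*} [Field K] (y : σ → K) (a : α → K)
    (p : MvPolynomial (α ⊕ σ) K) :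
    eval₂Hom (eval y) a (toIter K α σ p) = eval (Sum.elim a y) p := by
  have h5 : (eval₂Hom (eval y) a).comp (toIter K α σ) = eval (Sum.elim a y) := by
    refine MvPolynomial.ringHom_ext ?_ ?_
    · intro r
      simp [toIter]
    · rintro (k | k)
      · simp [toIter]
      · simp [toIter]
  rw [← h5, RingHom.comp_apply]

theorem aeval_toIter {K F L α σ : Type*} [Field K] [Field F] [Field L] [Algebra K L]
    [Algebra (MvPolynomial σ K) F] [Algebra F L] (x : σ → L) (a : α → L)
    (hφ : ∀ r : MvPolynomial σ K, algebraMap F L (algebraMap (MvPolynomial σ K) F r) = aeval x r)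
    (p : MvPolynomial (α ⊕ σ) K) :
    aeval a (map (algebraMap (MvPolynomial σ K) F) (toIter K α σ p)) =
      aeval (Sum.elim a x) p := by
  have h9 : ((aeval a : MvPolynomial α F →ₐ[F] L).toRingHom.comp
      (map (algebraMap (MvPolynomial σ K) F))).comp (toIter K α σ) =
      (aeval (Sum.elim a x) : MvPolynomial (α ⊕ σ) K →ₐ[K] L).toRingHom := by
    refine MvPolynomial.ringHom_ext ?_ ?_
    · intro r
      simp [toIter, hφ]
    · rintro (k | k)
      · simp [toIter]
      · simp [toIter, hφ]
  exact congrArg (fun f : MvPolynomial (α ⊕ σ) K →+* L => f p) h9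

theorem exists_point {K L σ α : Type*} [Field K] [CharZero K] [Field L] [Algebra K L]
    [IsAlgClosed L] [Finite α] (A : (σ → ℕ) → α → K) (x : σ → L)
    (hx : AlgebraicIndependent K x) :
    ∃ a : α → L, InClosure (Set.range fun y : σ → ℕ => Sum.elim (A y) (fun s => (y s : K)))
      (Sum.elim a x) := by
  classical
  -- `R₀ = K[σ]`, `F₀` its fraction field
  let R₀ := MvPolynomial σ K
  let F₀ := FractionRing R₀
  have hinj : Function.Injective (aeval x : MvPolynomial σ K →ₐ[K] L).toRingHom := hx
  let φ : F₀ →+* L := IsFractionRing.lift hinj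
  let _ : Algebra F₀ L := φ.toAlgebra
  have hφ : ∀ r : R₀, algebraMap F₀ L (algebraMap R₀ F₀ r) = aeval x r := by
    intro r
    exact IsFractionRing.lift_algebraMap hinj r
  -- evaluation at a graph point
  let θ : (σ → ℕ) → (MvPolynomial α R₀ →+* K) := fun y =>
    eval₂Hom (eval (fun s => (y s : K))) (A y)
  let J : Ideal (MvPolynomial α R₀) := ⨅ y, RingHom.ker (θ y)
  let I : Ideal (MvPolynomial α F₀) := J.map (algebraMap (MvPolynomial α R₀) (MvPolynomial α F₀))
  have hI : I ≠ ⊤ := by
    have h1 := (IsLocalization.map_algebraMap_ne_top_iff_disjoint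
      ((nonZeroDivisors R₀).map (C (σ := α))) (MvPolynomial α F₀) J).mpr
    refine h1 ?_
    rw [Set.disjoint_left]
    rintro q ⟨d, hd, rfl⟩ hq
    have hd0 : (d : R₀) ≠ 0 := nonZeroDivisors.ne_zero hd
    refine hd0 (eq_zero_of_nat d ?_)
    intro y
    have h2 : C d ∈ RingHom.ker (θ y) := (Ideal.mem_iInf.mp hq) y
    rw [RingHom.mem_ker] at h2
    simpa [θ] using h2
  have hne : ∃ a : α → L, a ∈ zeroLocus L I := by
    by_contra hcon
    push Not at hcon
    have hempty : zeroLocus L I = (∅ : Set (α → L)) := Set.eq_empty_iff_forall_notMem.mpr hcon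
    have h3 := MvPolynomial.vanishingIdeal_zeroLocus_eq_radical (K := L) I
    rw [hempty] at h3
    have h4 : (1 : MvPolynomial α F₀) ∈ I.radical := by
      rw [← h3]
      intro a ha
      exact absurd ha (Set.notMem_empty a)
    exact hI ((Ideal.radical_eq_top).mp ((Ideal.eq_top_iff_one _).mpr h4))
  obtain ⟨a, ha⟩ := hne
  refine ⟨a, ?_⟩
  intro p hp
  -- move to iterated polynomials
  let q : MvPolynomial α R₀ := toIter K α σ p
  have hq : q ∈ J := by
    rw [Ideal.mem_iInf]
    intro y
    rw [RingHom.mem_ker]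
    exact (eval_toIter (fun s => (y s : K)) (A y) p).trans (hp _ ⟨y, rfl⟩)
  have h7 : algebraMap (MvPolynomial α R₀) (MvPolynomial α F₀) q ∈ I := Ideal.mem_map_of_mem _ hq
  have h8 := (mem_zeroLocus_iff.mp ha) _ h7
  rw [← h8]
  exact (aeval_toIter x a hφ p).symm

end Pool.Agent.Helper20.MR
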