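import Mathlib
import Pool.Agent.Helper20.MR.Ext
import Pool.Agent.Helper20.MR.Point
import Pool.Agent.Helper20.MR.Deriv

/-! The core theorem: if a polynomial `f` in groups of variables is the determinant of a matrix
each of whose rows is an arbitrary function of one group, then at generic zeros of `f` large
subspaces of directions are isotropic for the mixed second derivatives. -/

namespace Pool.Agent.Helper20.MR

open MvPolynomial Matrix

/-- A derivation `∑ t, c t • D t`. -/
theorem sum_smul_derivation_apply {K L σ : Type*} [Field K] [Field L] [Algebra K L] [Fintype σ]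
    (D : σ → Derivation K L L) (c : σ → L) (y : L) :
    (∑ t, c t • D t) y = ∑ t, c t * D t y := by
  rw [← Derivation.coeFnAddMonoidHom_apply, map_sum, Finset.sum_apply]
  rfl

theorem det_eq_zero_of_mulVec {S n : Type*} [CommRing S] [Fintype n] [DecidableEq n]
    (M : Matrix n n S) (v : n → S) (k : n) (hk : IsUnit (v k)) (hv : M *ᵥ v = 0) :
    M.det = 0 := by
  have h1 : (M.adjugate * M) *ᵥ v = 0 := by
    rw [← Matrix.mulVec_mulVec, hv, Matrix.mulVec_zero]
  rw [Matrix.adjugate_mul, Matrix.smul_mulVec, Matrix.one_mulVec] at h1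
  have h2 := congrFun h1 k
  rw [Pi.smul_apply, smul_eq_mul, Pi.zero_apply] at h2
  exact (hk.mul_left_eq_zero).mp h2

universe u

theorem core {K ι : Type*} {L : Type u} [Field K] [CharZero K] [Field L] [Algebra K L] [IsAlgClosed L]
    [Fintype ι] [DecidableEq ι] {σ ρ : ι → Type*} [∀ i, Fintype (σ i)] [∀ i, Fintype (ρ i)]
    [∀ i, DecidableEq (ρ i)] (f : MvPolynomial (Σ i, σ i) K)
    (A : ∀ i, (σ i → ℕ) → ρ i → (Σ i, ρ i) → K)
    (hA : ∀ x : ∀ i, σ i → ℕ, Matrix.det (Matrix.of fun (r c : Σ i, ρ i) => A r.1 (x r.1) r.2 c)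
      = eval (fun s : Σ i, σ i => (x s.1 s.2 : K)) f)
    (x : ∀ i, σ i → L) (hx : ∀ i, AlgebraicIndependent K (x i))
    (hf : aeval (fun s : Σ i, σ i => x s.1 s.2) f = 0) :
    ∃ W : ∀ i, Submodule L (σ i → L),
      (∀ i, Fintype.card (σ i) ≤ Module.finrank L (W i) + Fintype.card (ρ i)) ∧
      ∀ i j, i ≠ j → ∀ c ∈ W i, ∀ d ∈ W j, ∀ (S : Type u) [CommRing S] [Algebra K S]
        (ψ : L →ₐ[K] S) (e₁ e₂ : S), e₁ * e₁ = 0 → e₂ * e₂ = 0 →
        aeval (fun s : Σ i, σ i => ψ (x s.1 s.2) +
          e₁ * ψ ((Pi.single i c : ∀ k, σ k → L) s.1 s.2) +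
          e₂ * ψ ((Pi.single j d : ∀ k, σ k → L) s.1 s.2)) f = 0 := by
  classical
  -- generic points of the graphs
  let κ : ι → Type _ := fun i => (ρ i × (Σ i, ρ i)) ⊕ σ i
  let Γ : ∀ i, Set (κ i → K) := fun i =>
    Set.range fun y : σ i → ℕ => Sum.elim (fun p : ρ i × (Σ i, ρ i) => A i y p.1 p.2)
      (fun s => (y s : K))
  have hpt : ∀ i, ∃ a : ρ i × (Σ i, ρ i) → L, InClosure (Γ i) (Sum.elim a (x i)) := fun i =>
    exists_point (fun y (p : ρ i × (Σ i, ρ i)) => A i y p.1 p.2) (x i) (hx i)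
  choose a ha using hpt
  -- the polynomial identity
  let F : MvPolynomial (Σ i, κ i) K :=
    Matrix.det (Matrix.of fun (r c : Σ i, ρ i) =>
      (X ⟨r.1, Sum.inl (r.2, c)⟩ : MvPolynomial (Σ i, κ i) K)) -
    rename (fun s : Σ i, σ i => (⟨s.1, Sum.inr s.2⟩ : Σ i, κ i)) f
  have hF0 : ∀ γ : ∀ i, κ i → K, (∀ i, γ i ∈ Γ i) →
      eval (fun k : Σ i, κ i => γ k.1 k.2) F = 0 := by
    intro γ hγ
    choose y hy using hγ
    simp only [F, map_sub, RingHom.map_det, eval_rename]
    rw [sub_eq_zero]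
    have h1 := hA y
    have h2 : (fun s : Σ i, σ i => ((y s.1 s.2 : ℕ) : K)) =
        (fun k : Σ i, κ i => γ k.1 k.2) ∘ (fun s : Σ i, σ i => (⟨s.1, Sum.inr s.2⟩ : Σ i, κ i)) := by
      funext s
      simp only [Function.comp]
      rw [← hy s.1]
      rfl
    rw [h2] at h1
    rw [← h1]
    congr 1
    ext r c
    simp only [RingHom.mapMatrix_apply, Matrix.map_apply, Matrix.of_apply, eval_X]
    rw [← hy r.1]
    rfl
  have hident : ∀ (S : Type u) [CommRing S] [Algebra K S] (s : ∀ i, κ i → S),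
      (∀ i, InClosure (Γ i) (s i)) →
      Matrix.det (Matrix.of fun (r c : Σ i, ρ i) => s r.1 (Sum.inl (r.2, c))) =
        aeval (fun t : Σ i, σ i => s t.1 (Sum.inr t.2)) f := by
    intro S _ _ s hs
    have h3 := aeval_prod_eq_zero Γ s hs F hF0
    simp only [F, map_sub, AlgHom.map_det, aeval_rename] at h3
    rw [sub_eq_zero] at h3
    have h4 : (aeval fun k : Σ i, κ i => s k.1 k.2).mapMatrix (Matrix.of fun (r c : Σ i, ρ i) =>
      (X ⟨r.1, Sum.inl (r.2, c)⟩ : MvPolynomial (Σ i, κ i) K)) =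
        (Matrix.of fun (r c : Σ i, ρ i) => s r.1 (Sum.inl (r.2, c))) := by
      ext r c
      simp
    rw [h4] at h3
    exact h3
  -- the base point is singular
  let M₀ : Matrix (Σ i, ρ i) (Σ i, ρ i) L := Matrix.of fun r c => a r.1 (r.2, c)
  have hM₀ : M₀.det = 0 := by
    have h5 := hident L (fun i => Sum.elim (a i) (x i)) ha
    simp only [Sum.elim_inl, Sum.elim_inr] at h5
    rw [hf] at h5
    exact h5
  obtain ⟨v, hv0, hv⟩ := Matrix.exists_mulVec_eq_zero_iff.mpr hM₀
  obtain ⟨k₀, hk₀⟩ : ∃ k, v k ≠ 0 := Function.ne_iff.mp hv0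
  -- derivations
  have hD : ∀ i (t : σ i), ∃ D : Derivation K L L, ∀ s, D (x i s) = (Pi.single t 1 : σ i → L) s :=
    fun i t => exists_derivation (x i) (hx i) _
  choose D hD using hD
  let Dc : ∀ i, (σ i → L) → Derivation K L L := fun i c => ∑ t, c t • D i t
  have hDcx : ∀ i c s, Dc i c (x i s) = c s := by
    intro i c s
    simp only [Dc]
    rw [sum_smul_derivation_apply]
    simp [hD, Pi.single_apply]
  -- the linear maps
  let T : ∀ i, (σ i → L) →ₗ[L] (ρ i → L) := fun i =>
    { toFun := fun c r => ∑ col, Dc i c (a i (r, col)) * v col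
      map_add' := fun c d => by
        funext r
        simp only [Dc, sum_smul_derivation_apply, Pi.add_apply, add_mul, Finset.sum_add_distrib]
      map_smul' := fun l c => by
        funext r
        simp only [Dc, sum_smul_derivation_apply, Pi.smul_apply, smul_eq_mul, RingHom.id_apply,
          Finset.mul_sum, Finset.sum_mul, mul_assoc] }
  refine ⟨fun i => LinearMap.ker (T i), ?_, ?_⟩
  · intro i
    have h6 := LinearMap.finrank_range_add_finrank_ker (T i)
    have h7 : Module.finrank L (LinearMap.range (T i)) ≤ Fintype.card (ρ i) := by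
      have := Submodule.finrank_le (LinearMap.range (T i))
      rwa [Module.finrank_fintype_fun_eq_card] at this
    rw [Module.finrank_fintype_fun_eq_card] at h6
    change _ ≤ Module.finrank L (LinearMap.ker (T i)) + _
    omega
  · intro i j hij c hc d hd S _ _ ψ e₁ e₂ he₁ he₂
    -- homomorphisms for the parts
    let Ψ : ι → (L →ₐ[K] S) := fun k =>
      if k = i then expHom ψ e₁ he₁ (Dc i c) else
      if k = j then expHom ψ e₂ he₂ (Dc j d) else ψ
    have h8 := hident S (fun k => fun t => Ψ k (Sum.elim (a k) (x k) t))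
      (fun k => InClosure.map _ _ (ha k) (Ψ k))
    simp only [Sum.elim_inl, Sum.elim_inr] at h8
    have h9 : (fun t : Σ i, σ i => Ψ t.1 (x t.1 t.2)) = fun s : Σ i, σ i => ψ (x s.1 s.2) +
          e₁ * ψ ((Pi.single i c : ∀ k, σ k → L) s.1 s.2) +
          e₂ * ψ ((Pi.single j d : ∀ k, σ k → L) s.1 s.2) := by
      funext s
      obtain ⟨k, s⟩ := s
      by_cases hki : k = i
      · subst hki
        simp [Ψ, expHom_apply, hDcx, hij]
      · by_cases hkj : k = j
        · subst hkj
          simp [Ψ, expHom_apply, hDcx, hki]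
        · simp [Ψ, hki, hkj]
    rw [← h9, ← h8]
    refine det_eq_zero_of_mulVec _ (fun k => ψ (v k)) k₀ ?_ ?_
    · exact (IsUnit.mk0 _ hk₀).map ψ
    · funext r
      obtain ⟨k, r⟩ := r
      have h10 : ∑ col, a k (r, col) * v col = 0 := congrFun hv ⟨k, r⟩
      have hci : ∀ r, ∑ col, Dc i c (a i (r, col)) * v col = 0 := fun r =>
        congrFun (LinearMap.mem_ker.mp hc) r
      have hdj : ∀ r, ∑ col, Dc j d (a j (r, col)) * v col = 0 := fun r =>
        congrFun (LinearMap.mem_ker.mp hd) r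
      change ∑ col, Ψ k (a k (r, col)) * ψ (v col) = 0
      by_cases hki : k = i
      · subst hki
        simp only [Ψ, if_true, expHom_apply, add_mul, mul_assoc, Finset.sum_add_distrib,
          ← Finset.mul_sum, ← map_mul, ← map_sum, h10, hci, map_zero, mul_zero, add_zero]
      · by_cases hkj : k = j
        · subst hkj
          simp only [Ψ, if_neg hki, if_true, expHom_apply, add_mul, mul_assoc,
            Finset.sum_add_distrib, ← Finset.mul_sum, ← map_mul, ← map_sum, h10, hdj, map_zero,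
            mul_zero, add_zero]
        · simp only [Ψ, if_neg hki, if_neg hkj, ← map_mul, ← map_sum, h10, map_zero]

end Pool.Agent.Helper20.MR
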