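import Mathlib

/-! Generic points on hypersurfaces. -/

namespace Pool.Agent.Helper20.MR

open MvPolynomial

universe u

theorem exists_rename_of_dvd {K : Type*} [Field K] {τ τ' : Type*} (f : τ → τ')
    (hf : Function.Injective f) (h : MvPolynomial τ K) (h0 : h ≠ 0) (p : MvPolynomial τ' K)
    (hp : p ∣ rename f h) : ∃ w : MvPolynomial τ K, rename f w = p := by
  classical
  obtain ⟨q, hq⟩ := hp
  have hr : rename f h ≠ 0 := by
    intro hz
    exact h0 (rename_injective f hf (by rw [hz, map_zero]))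
  have hp0 : p ≠ 0 := by
    rintro rfl
    exact hr (by rw [hq, zero_mul])
  have hq0 : q ≠ 0 := by
    rintro rfl
    exact hr (by rw [hq, mul_zero])
  refine exists_rename_eq_of_vars_subset_range p f hf ?_
  intro t ht
  by_contra hcon
  have h1 : t ∈ p.vars := ht
  rw [mem_vars_iff_degreeOf_ne_zero] at h1
  have h2 : degreeOf t (p * q) = degreeOf t p + degreeOf t q := degreeOf_mul_eq hp0 hq0
  rw [← hq] at h2
  have h3 : degreeOf t (rename f h) = 0 := by
    by_contra h4
    have h5 : t ∈ (rename f h).vars := mem_vars_iff_degreeOf_ne_zero.mpr h4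
    have h6 := vars_rename f h h5
    rw [Finset.mem_image] at h6
    obtain ⟨s, _, hs⟩ := h6
    exact hcon ⟨s, hs⟩
  omega

theorem generic_zero {K : Type u} [Field K] {ι : Type} {σ : ι → Type}
    (g Δ : MvPolynomial (Σ i, σ i) K) (pt : (Σ i, σ i) → K) (hg0 : g ≠ 0)
    (hg : eval pt g = 0) (hΔ : eval pt Δ ≠ 0)
    (hunit : ∀ i, ∀ w : MvPolynomial (σ i) K,
      rename (fun s => (⟨i, s⟩ : Σ i, σ i)) w ∣ g → IsUnit w) :
    ∃ (L : Type u) (_ : Field L) (_ : Algebra K L) (_ : IsAlgClosed L) (x : ∀ i, σ i → L),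
      (∀ i, AlgebraicIndependent K (x i)) ∧ aeval (fun s : Σ i, σ i => x s.1 s.2) g = 0 ∧
      aeval (fun s : Σ i, σ i => x s.1 s.2) Δ ≠ 0 := by
  classical
  -- a prime factor vanishing at the point
  obtain ⟨m, hm, hmg⟩ := UniqueFactorizationMonoid.exists_prime_factors g hg0
  have h1 : eval pt m.prod = 0 := by
    obtain ⟨w, hw⟩ := hmg
    have h2 : eval pt (m.prod * w) = 0 := by rw [hw, hg]
    rw [map_mul] at h2
    rcases mul_eq_zero.mp h2 with h3 | h3
    · exact h3
    · exact absurd h3 ((w.isUnit.map (eval pt)).ne_zero)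
  rw [map_multiset_prod, Multiset.prod_eq_zero_iff, Multiset.mem_map] at h1
  obtain ⟨p, hpm, hp0⟩ := h1
  have hp : Prime p := hm p hpm
  have hpg : p ∣ g := (Multiset.dvd_prod hpm).trans hmg.dvd
  let I : Ideal (MvPolynomial (Σ i, σ i) K) := Ideal.span {p}
  have hI : I.IsPrime := (Ideal.span_singleton_prime hp.ne_zero).mpr hp
  let Q := MvPolynomial (Σ i, σ i) K ⧸ I
  let L := AlgebraicClosure (FractionRing Q)
  let j : MvPolynomial (Σ i, σ i) K →ₐ[K] L :=
    (IsScalarTower.toAlgHom K Q L).comp (Ideal.Quotient.mkₐ K I)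
  have hj : ∀ q, j q = 0 ↔ p ∣ q := by
    intro q
    have h4 : j q = algebraMap (FractionRing Q) L (algebraMap Q (FractionRing Q)
        (Ideal.Quotient.mk I q)) := rfl
    rw [h4]
    rw [map_eq_zero_iff _ (algebraMap (FractionRing Q) L).injective,
      map_eq_zero_iff _ (IsFractionRing.injective Q (FractionRing Q)),
      Ideal.Quotient.eq_zero_iff_mem, Ideal.mem_span_singleton]
  have hjx : j = aeval (fun s : Σ i, σ i => j (X s)) := by
    refine MvPolynomial.algHom_ext fun s => ?_
    rw [aeval_X]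
  refine ⟨L, inferInstance, inferInstance, inferInstance, fun i s => j (X ⟨i, s⟩), ?_, ?_, ?_⟩
  · intro i
    rw [algebraicIndependent_iff]
    intro h hh
    by_contra h0
    have h5 : aeval (fun s => j (X (⟨i, s⟩ : Σ i, σ i))) h =
        j (rename (fun s => (⟨i, s⟩ : Σ i, σ i)) h) := by
      conv_rhs => rw [hjx]
      rw [aeval_rename]
      rfl
    rw [h5, hj] at hh
    have hinj : Function.Injective (fun s => (⟨i, s⟩ : Σ i, σ i)) := by
      intro s t hst
      simpa using hst
    obtain ⟨w, hw⟩ := exists_rename_of_dvd _ hinj h h0 p hh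
    have h6 := hunit i w (by rw [hw]; exact hpg)
    have h7 : IsUnit p := by
      rw [← hw]
      exact h6.map _
    exact hp.not_isUnit h7
  · change aeval (fun s : Σ i, σ i => j (X s)) g = 0
    rw [← hjx]
    exact (hj g).mpr hpg
  · change aeval (fun s : Σ i, σ i => j (X s)) Δ ≠ 0
    rw [← hjx]
    intro h8
    obtain ⟨q, hq⟩ := (hj Δ).mp h8
    apply hΔ
    rw [hq, map_mul, hp0, zero_mul]

end Pool.Agent.Helper20.MR
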