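import Mathlib

/-! Isotropic pairs of subspaces of a nondegenerate pairing. -/

namespace Pool.Agent.Helper20.MR

open Matrix Module

theorem isotropic_pair {L P : Type*} [Field L] [Fintype P] [DecidableEq P] (H : Matrix P P L)
    (hH : H.det ≠ 0) (U V : Submodule L (P → L))
    (h : ∀ u ∈ U, ∀ v ∈ V, u ⬝ᵥ (H *ᵥ v) = 0) :
    finrank L U + finrank L V ≤ Fintype.card P := by
  have hnd : (Matrix.toBilin' (1 : Matrix P P L)).Nondegenerate :=
    LinearMap.BilinForm.nondegenerate_toBilin'_iff_det_ne_zero.mpr (by simp)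
  have h1 := LinearMap.BilinForm.finrank_orthogonal hnd U
  have hinj : Function.Injective H.mulVecLin := by
    rw [← LinearMap.ker_eq_bot, LinearMap.ker_eq_bot']
    intro v hv
    by_contra hv0
    exact hH (Matrix.exists_mulVec_eq_zero_iff.mp ⟨v, hv0, hv⟩)
  have h2 : finrank L (V.map H.mulVecLin) = finrank L V :=
    (Submodule.equivMapOfInjective H.mulVecLin hinj V).finrank_eq.symm
  have h3 : V.map H.mulVecLin ≤ (Matrix.toBilin' (1 : Matrix P P L)).orthogonal U := by
    rintro y ⟨v, hv, rfl⟩
    rw [LinearMap.BilinForm.mem_orthogonal_iff]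
    intro u hu
    change Matrix.toBilin' (1 : Matrix P P L) u (H.mulVecLin v) = 0
    rw [Matrix.toBilin'_apply', Matrix.one_mulVec]
    exact h u hu v hv
  have h4 := Submodule.finrank_mono h3
  have h5 := Submodule.finrank_le U
  rw [Module.finrank_fintype_fun_eq_card] at h1 h5
  omega

end Pool.Agent.Helper20.MR
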