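import Mathlib
import Pool.Agent.Helper20.MR.Core
import Pool.Agent.Helper20.MR.Hyper
import Pool.Agent.Helper20.MR.LinAlg
import Pool.Agent.Helper20.MR.Irred
import Pool.Agent.Helper20.MR.Arrow

/-! The lower bound for a fixed arrangement of the positions. -/

namespace Pool.Agent.Helper20.MR

open MvPolynomial Matrix Module

theorem finrank_comap_ge {L V V' : Type*} [Field L] [AddCommGroup V] [Module L V]
    [AddCommGroup V'] [Module L V'] [FiniteDimensional L V] [FiniteDimensional L V']
    (g : V →ₗ[L] V') (hg : Function.Injective g) (W : Submodule L V') :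
    finrank L W + finrank L V ≤ finrank L (W.comap g) + finrank L V' := by
  have h1 : finrank L (W.comap g) = finrank L ((W.comap g).map g) :=
    (Submodule.equivMapOfInjective g hg (W.comap g)).finrank_eq
  have h2 : finrank L (LinearMap.range g) = finrank L V := LinearMap.finrank_range_of_inj hg
  rw [Submodule.map_comap_eq] at h1
  have h3 := Submodule.finrank_sup_add_finrank_inf_eq (LinearMap.range g) W
  have h4 := Submodule.finrank_le (LinearMap.range g ⊔ W)
  omega

section border

variable {N : Type*} [DecidableEq N]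

/-- Incidence of positions with rows and columns. -/
def inc (R : Type*) [CommRing R] (Q : Finset (N × N)) : Matrix Q (N ⊕ N) R :=
  fun p s => Sum.elim (fun i => if p.1.1 = i then 1 else 0) (fun a => if p.1.2 = a then 1 else 0) s

/-- The bordered matrix. -/
def border {R : Type*} [CommRing R] (Q : Finset (N × N)) (H : Matrix Q Q R) :
    Matrix (Q ⊕ (N ⊕ N)) (Q ⊕ (N ⊕ N)) R :=
  Matrix.fromBlocks H (inc R Q) (inc R Q)ᵀ 1

theorem border_map {R S : Type*} [CommRing R] [CommRing S] (φ : R →+* S) (Q : Finset (N × N))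
    (H : Matrix Q Q R) : (border Q H).map φ = border Q (H.map φ) := by
  unfold border
  rw [Matrix.fromBlocks_map]
  congr 1
  · ext p s
    rcases s with i | a
    · simp [inc, apply_ite φ]
    · simp [inc, apply_ite φ]
  · ext s p
    rcases s with i | a
    · simp [inc, apply_ite φ]
    · simp [inc, apply_ite φ]
  · ext s t
    simp [Matrix.one_apply, apply_ite φ]

/-- The pairing of the positions of `Q` with the transposed positions. -/
noncomputable def hmat [Fintype N] {R : Type*} [CommRing R] (x : N → N → R) (Q : Finset (N × N)) :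
    Matrix Q Q R := Matrix.of fun p q => hess x p.1 q.1.swap

theorem border_det_ne_zero [Fintype N] {K : Type*} [Field K] [CharZero K] (o : N)
    (Q : Finset (N × N)) (hQ : ∀ p ∈ Q, p.1 ≠ p.2 ∧ p.1 ≠ o ∧ p.2 ≠ o) :
    (border Q (hmat (arrow N K o) Q)).det ≠ 0 := by
  unfold border
  rw [Matrix.det_fromBlocks_one₂₂]
  have h1 : hmat (arrow N K o) Q - inc K Q * (inc K Q)ᵀ = (-4 : K) • (1 : Matrix Q Q K) := by
    ext p q
    rw [Matrix.sub_apply, Matrix.mul_apply, Fintype.sum_sum_type, hmat, Matrix.of_apply]
    rw [hess_arrow_all o p.1 q.1 (hQ _ p.2).1 (hQ _ q.2).1 (hQ _ p.2).2.1 (hQ _ p.2).2.2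
      (hQ _ q.2).2.1 (hQ _ q.2).2.2]
    simp only [inc, Matrix.transpose_apply, Sum.elim_inl, Sum.elim_inr, mul_ite, mul_one,
      mul_zero, Finset.sum_ite_eq, Finset.mem_univ, if_true, Matrix.smul_apply, Matrix.one_apply,
      smul_eq_mul]
    have h2 : (p.1.1 = q.1.1) = (q.1.1 = p.1.1) := propext eq_comm
    have h3 : (p.1.2 = q.1.2) = (q.1.2 = p.1.2) := propext eq_comm
    have h4 : (p.1 = q.1) = (p = q) := propext Subtype.ext_iff.symm
    simp only [h2, h3, h4]
    split_ifs <;> ring
  rw [h1, Matrix.det_smul, Matrix.det_one, mul_one]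
  exact pow_ne_zero _ (by norm_num)

end border

universe u

theorem frame {K : Type u} [Field K] [CharZero K] {N : Type} [Fintype N] [DecidableEq N] (o : N)
    {ι : Type} [Fintype ι] [DecidableEq ι] (cl : N × N → ι) (b₁ b₂ : ι) (hb : b₁ ≠ b₂)
    {ρ : ι → Type} [∀ i, Fintype (ρ i)] [∀ i, DecidableEq (ρ i)]
    (A : ∀ i, ({p // cl p = i} → ℕ) → ρ i → (Σ i, ρ i) → K)
    (hA : ∀ x : ∀ i, {p // cl p = i} → ℕ,
      Matrix.det (Matrix.of fun (r c : Σ i, ρ i) => A r.1 (x r.1) r.2 c) =
        permMl N K (fun i a => (x (cl (i, a)) ⟨(i, a), rfl⟩ : K)))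
    (Q : Finset (N × N))
    (hQ : ∀ p ∈ Q, p.1 ≠ p.2 ∧ p.1 ≠ o ∧ p.2 ≠ o ∧ cl p = b₁ ∧ cl p.swap = b₂) :
    Q.card ≤ Fintype.card (ρ b₁) + Fintype.card (ρ b₂) + 2 * Fintype.card N := by
  classical
  rcases Q.eq_empty_or_nonempty with rfl | hne
  · simp
  let e : N × N → Σ i, {p // cl p = i} := fun p => ⟨cl p, p, rfl⟩
  have he : Function.Injective e := by
    intro p q hpq
    have h1 : (e p).2.1 = (e q).2.1 := by rw [hpq]
    exact h1
  let back : (Σ i, {p // cl p = i}) → N × N := fun s => s.2.1
  have hback : ∀ s, e (back s) = s := by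
    rintro ⟨i, p, rfl⟩
    rfl
  let f : MvPolynomial (Σ i, {p // cl p = i}) K := rename e (permPoly N K)
  let pt : (Σ i, {p // cl p = i}) → K := fun s => arrow N K o s.2.1.1 s.2.1.2
  let Δ₀ : MvPolynomial (N × N) K := (border Q (Matrix.of fun p q : Q =>
    pderiv q.1.swap (pderiv p.1 (permPoly N K)))).det
  have hΔ₀ : ∀ (A : Type u) [CommRing A] [Algebra K A] (x : N × N → A),
      aeval x Δ₀ = (border Q (hmat (fun i a => x (i, a)) Q)).det := by
    intro A _ _ x
    have h1 := RingHom.map_det ((aeval x : MvPolynomial (N × N) K →ₐ[K] A) :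
      MvPolynomial (N × N) K →+* A) (border Q (Matrix.of fun p q : Q =>
        pderiv q.1.swap (pderiv p.1 (permPoly N K))))
    rw [RingHom.mapMatrix_apply, border_map] at h1
    refine h1.trans ?_
    congr 2
    ext p q
    exact pderiv_pderiv_permPoly x p.1 q.1.swap
  have hg := generic_zero f (rename e Δ₀) pt ?_ ?_ ?_ ?_
  · obtain ⟨L, _, _, _, x, hxi, hx0, hxΔ⟩ := hg
    obtain ⟨W, hW1, hW2⟩ := core f A (by
      intro y
      rw [hA y, eval_rename]
      have h1 := aeval_permPoly (K := K) (A := K) ((fun s : Σ i, {p // cl p = i} =>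
        ((y s.1 s.2 : ℕ) : K)) ∘ e)
      rw [MvPolynomial.aeval_eq_eval] at h1
      exact h1.symm) x hxi hx0
    let x' : N × N → L := fun p => x (cl p) ⟨p, rfl⟩
    have key : ∀ c ∈ W b₁, ∀ d ∈ W b₂, hessForm (permPoly N K) x'
        (fun p => (Pi.single b₁ c : ∀ k, {p // cl p = k} → L) (cl p) ⟨p, rfl⟩)
        (fun p => (Pi.single b₂ d : ∀ k, {p // cl p = k} → L) (cl p) ⟨p, rfl⟩) = 0 := by
      intro c hc d hd
      refine hessForm_eq_zero _ _ _ _ ?_
      have h1 := hW2 b₁ b₂ hb c hc d hd (DualNumber (DualNumber L))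
        ((TrivSqZeroExt.inlAlgHom K (DualNumber L) (DualNumber L)).comp
          (TrivSqZeroExt.inlAlgHom K L L)) (TrivSqZeroExt.inl DualNumber.eps) DualNumber.eps
        (by rw [← TrivSqZeroExt.inl_mul, DualNumber.eps_mul_eps, TrivSqZeroExt.inl_zero])
        DualNumber.eps_mul_eps
      rw [show f = rename e (permPoly N K) from rfl, aeval_rename] at h1
      exact h1
    -- directions supported on `Q` and on the transpose of `Q`
    let g₁ : (Q → L) →ₗ[L] ({p // cl p = b₁} → L) :=
      { toFun := fun u s => if h : s.1 ∈ Q then u ⟨s.1, h⟩ else 0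
        map_add' := fun u v => by
          funext s
          by_cases h : s.1 ∈ Q <;> simp [h]
        map_smul' := fun l v => by
          funext s
          by_cases h : s.1 ∈ Q <;> simp [h] }
    let g₂ : (Q → L) →ₗ[L] ({p // cl p = b₂} → L) :=
      { toFun := fun u s => if h : s.1.swap ∈ Q then u ⟨s.1.swap, h⟩ else 0
        map_add' := fun u v => by
          funext s
          by_cases h : s.1.swap ∈ Q <;> simp [h]
        map_smul' := fun l v => by
          funext s
          by_cases h : s.1.swap ∈ Q <;> simp [h] }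
    have hg₁ : Function.Injective g₁ := by
      intro u v huv
      funext p
      have h1 := congrFun huv ⟨p.1, (hQ _ p.2).2.2.2.1⟩
      simpa [g₁] using h1
    have hg₂ : Function.Injective g₂ := by
      intro u v huv
      funext p
      have h1 := congrFun huv ⟨p.1.swap, (hQ _ p.2).2.2.2.2⟩
      simpa [g₂] using h1
    have hd₁ := finrank_comap_ge g₁ hg₁ (W b₁)
    have hd₂ := finrank_comap_ge g₂ hg₂ (W b₂)
    have hx₁ : ∀ (u : Q → L) (p : N × N),
        (Pi.single b₁ (g₁ u) : ∀ k, {p // cl p = k} → L) (cl p) ⟨p, rfl⟩ =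
          if h : p ∈ Q then u ⟨p, h⟩ else 0 := by
      intro u p
      by_cases h : cl p = b₁
      · subst h
        simp [g₁]
      · rw [Pi.single_eq_of_ne h, dif_neg]
        · rfl
        · intro h'
          exact h (hQ _ h').2.2.2.1
    have hx₂ : ∀ (u : Q → L) (p : N × N),
        (Pi.single b₂ (g₂ u) : ∀ k, {p // cl p = k} → L) (cl p) ⟨p, rfl⟩ =
          if h : p.swap ∈ Q then u ⟨p.swap, h⟩ else 0 := by
      intro u p
      by_cases h : cl p = b₂
      · subst h
        simp [g₂]
      · rw [Pi.single_eq_of_ne h, dif_neg]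
        · rfl
        · intro h'
          have := (hQ _ h').2.2.2.2
          rw [Prod.swap_swap] at this
          exact h this
    have hform : ∀ u v : Q → L, hessForm (permPoly N K) x'
        (fun p => (Pi.single b₁ (g₁ u) : ∀ k, {p // cl p = k} → L) (cl p) ⟨p, rfl⟩)
        (fun p => (Pi.single b₂ (g₂ v) : ∀ k, {p // cl p = k} → L) (cl p) ⟨p, rfl⟩) =
        u ⬝ᵥ (hmat (fun i a => x' (i, a)) Q *ᵥ v) := by
      intro u v
      unfold hessForm
      simp only [hx₁, hx₂]
      rw [← Finset.sum_subset (Finset.subset_univ Q)]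
      · rw [← Finset.sum_coe_sort Q, dotProduct]
        refine Finset.sum_congr rfl fun p _ => ?_
        rw [dif_pos p.2, ← (Equiv.prodComm N N).sum_comp]
        rw [← Finset.sum_subset (Finset.subset_univ Q)]
        · rw [← Finset.sum_coe_sort Q, Matrix.mulVec, dotProduct, Finset.mul_sum]
          refine Finset.sum_congr rfl fun q _ => ?_
          rw [Equiv.prodComm_apply, dif_pos (by rw [Prod.swap_swap]; exact q.2),
            pderiv_pderiv_permPoly]
          simp only [Prod.swap_swap, hmat, Matrix.of_apply]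
          ring
        · intro q _ hq
          rw [Equiv.prodComm_apply, dif_neg (by rw [Prod.swap_swap]; exact hq)]
          ring
      · intro p _ hp
        refine Finset.sum_eq_zero fun t _ => ?_
        rw [dif_neg hp]
        ring
    let j : (Q → L) →ₗ[L] (Q ⊕ (N ⊕ N) → L) :=
      { toFun := fun u => Sum.elim u 0
        map_add' := fun u v => by
          funext s
          rcases s with s | s <;> simp
        map_smul' := fun l v => by
          funext s
          rcases s with s | s <;> simp }
    have hj : Function.Injective j := by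
      intro u v huv
      funext p
      exact congrFun huv (Sum.inl p)
    have hiso := isotropic_pair (border Q (hmat (fun i a => x' (i, a)) Q)) ?_
      (((W b₁).comap g₁).map j) (((W b₂).comap g₂).map j) ?_
    · rw [(Submodule.equivMapOfInjective j hj _).symm.finrank_eq,
        (Submodule.equivMapOfInjective j hj _).symm.finrank_eq, Fintype.card_sum,
        Fintype.card_sum, Fintype.card_coe] at hiso
      have h1 := hW1 b₁
      have h2 := hW1 b₂
      simp only [Module.finrank_fintype_fun_eq_card, Fintype.card_coe] at hd₁ hd₂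
      omega
    · rw [← hΔ₀ L x']
      rw [aeval_rename] at hxΔ
      exact hxΔ
    · rintro _ ⟨u, hu, rfl⟩ _ ⟨v, hv, rfl⟩
      have h1 := key _ hu _ hv
      rw [hform] at h1
      rw [← h1]
      simp only [dotProduct, Matrix.mulVec, border, Fintype.sum_sum_type]
      simp [j, Matrix.fromBlocks]
  · intro h0
    have h1 := one_le_degreeOf_permPoly (K := K) (o, o)
    rw [show permPoly N K = 0 from rename_injective e he (by rw [map_zero]; exact h0),
      degreeOf_zero] at h1
    omega
  · rw [eval_rename]
    have h1 := aeval_permPoly (K := K) (A := K) (pt ∘ e)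
    rw [MvPolynomial.aeval_eq_eval] at h1
    refine h1.trans ?_
    exact permMl_arrow o
  · rw [eval_rename]
    have h1 := hΔ₀ K (pt ∘ e)
    rw [MvPolynomial.aeval_eq_eval] at h1
    change eval (pt ∘ e) Δ₀ ≠ 0
    intro h2
    have h3 : (border Q (hmat (fun i a => (pt ∘ e) (i, a)) Q)).det = 0 := h1.symm.trans h2
    exact border_det_ne_zero (K := K) o Q (fun p hp => ⟨(hQ p hp).1, (hQ p hp).2.1,
      (hQ p hp).2.2.1⟩) h3
  · intro i w hw
    have h1 : rename (fun s : {p // cl p = i} => s.1) w ∣ permPoly N K := by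
      have h2 := map_dvd (rename back : MvPolynomial (Σ i, {p // cl p = i}) K →ₐ[K]
        MvPolynomial (N × N) K) hw
      rw [rename_rename, rename_rename] at h2
      have h3 : back ∘ e = id := rfl
      rw [h3, rename_id_apply] at h2
      exact h2
    obtain ⟨p₀, hp₀⟩ : ∃ p₀, cl p₀ ≠ i := by
      obtain ⟨p, hp⟩ := hne
      by_cases h : i = b₁
      · refine ⟨p.swap, ?_⟩
        rw [(hQ p hp).2.2.2.2, h]
        exact hb.symm
      · refine ⟨p, ?_⟩
        rw [(hQ p hp).2.2.2.1]
        exact Ne.symm h
    have h2 := isUnit_of_dvd_permPoly _ h1 p₀ (by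
      by_contra h
      have h3 := vars_rename (fun s : {p // cl p = i} => s.1) w
        (mem_vars_iff_degreeOf_ne_zero.mpr h)
      rw [Finset.mem_image] at h3
      obtain ⟨s, _, hs⟩ := h3
      exact hp₀ (hs ▸ s.2))
    have hinj : Function.Injective (fun s : {p // cl p = i} => s.1) := Subtype.val_injective
    have h3 := h2.map (killCompl hinj)
    rwa [killCompl_rename_app] at h3

end Pool.Agent.Helper20.MR
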