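import Mathlib
import Pool.Agent.Helper20.MR.Frame
import Pool.Agent.Helper20.MR.Average

/-! Reduction of gadgets to row partitioned determinants, and the main theorem. -/

namespace Pool.Agent.Helper20.MR

open Matrix

theorem gadget_reduction {K ι : Type*} [Field K] [Fintype ι] [DecidableEq ι] {s : ℕ}
    {σ ρ : ι → Type*} [∀ i, Fintype (ρ i)] [∀ i, DecidableEq (ρ i)]
    (C : Matrix (Fin s) (Fin s) K) (P : ∀ i, Matrix (Fin s) (ρ i) K)
    (Q : ∀ i, (σ i → ℕ) → Matrix (ρ i) (Fin s) K) (g : (∀ i, σ i → ℕ) → K)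
    (h : ∀ x, (C + ∑ i, P i * Q i (x i)).det = g x) (x₀ : ∀ i, σ i → ℕ) (hx₀ : g x₀ = 1) :
    ∃ A : ∀ i, (σ i → ℕ) → ρ i → (Σ i, ρ i) → K, ∀ x,
      Matrix.det (Matrix.of fun (r c : Σ i, ρ i) => A r.1 (x r.1) r.2 c) = g x := by
  let C' : Matrix (Fin s) (Fin s) K := C + ∑ i, P i * Q i (x₀ i)
  have hC' : C'.det = 1 := (h x₀).trans hx₀
  have hCu : IsUnit C'.det := by rw [hC']; exact isUnit_one
  let PP : Matrix (Fin s) (Σ i, ρ i) K := Matrix.of fun i c => P c.1 i c.2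
  let QQ : (∀ i, σ i → ℕ) → Matrix (Σ i, ρ i) (Fin s) K := fun x =>
    Matrix.of fun r j => Q r.1 (x r.1) r.2 j - Q r.1 (x₀ r.1) r.2 j
  have h1 : ∀ x, C + ∑ i, P i * Q i (x i) = C' + PP * QQ x := by
    intro x
    ext a b
    simp only [C', Matrix.add_apply, Matrix.sum_apply, Matrix.mul_apply, PP, QQ, Matrix.of_apply,
      Fintype.sum_sigma, mul_sub, Finset.sum_sub_distrib]
    ring
  refine ⟨fun i y r c => (1 : Matrix (Σ i, ρ i) (Σ i, ρ i) K) ⟨i, r⟩ c +
    ∑ j, (Q i y r j - Q i (x₀ i) r j) * (C'⁻¹ * PP) j c, fun x => ?_⟩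
  rw [← h x, h1 x]
  have h2 : C' + PP * QQ x = C' * (1 + (C'⁻¹ * PP) * QQ x) := by
    rw [mul_add, mul_one, Matrix.mul_assoc, ← Matrix.mul_assoc C', Matrix.mul_nonsing_inv _ hCu,
      Matrix.one_mul]
  rw [h2, Matrix.det_mul, hC', one_mul, Matrix.det_one_add_mul_comm]
  rfl

theorem natCast_permanent {K N : Type*} [Field K] [Fintype N] [DecidableEq N]
    (X : Matrix N N ℕ) : ((X.permanent : ℕ) : K) = permMl N K (fun i a => (X i a : K)) := by
  have h1 : ((X.permanent : ℕ) : K) = Matrix.permanent (Matrix.of fun i a => (X i a : K)) := by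
    simp [Matrix.permanent]
  rw [h1, permanent_eq]
  rfl

universe u

theorem two_blocks {K : Type u} [Field K] [CharZero K] (n s t₁ t₂ : ℕ)
    (E : Finset (Fin n × Fin n)) (C : Matrix (Fin s) (Fin s) K)
    (P₁ : Matrix (Fin s) (Fin t₁) K) (P₂ : Matrix (Fin s) (Fin t₂) K)
    (Q₁ : ({p // p ∈ E} → ℕ) → Matrix (Fin t₁) (Fin s) K)
    (Q₂ : ({p // p ∉ E} → ℕ) → Matrix (Fin t₂) (Fin s) K)
    (h : ∀ X : Matrix (Fin n) (Fin n) ℕ, (C + P₁ * Q₁ (fun p => X p.1.1 p.1.2) +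
      P₂ * Q₂ (fun p => X p.1.1 p.1.2)).det = (X.permanent : K)) :
    E.card * (n ^ 2 - E.card) ≤ n ^ 2 * (t₁ + t₂ + 4 * n) := by
  classical
  have hEc : Eᶜ.card = n ^ 2 - E.card := by
    rw [Finset.card_compl, Fintype.card_prod, Fintype.card_fin, sq]
  rw [← hEc]
  by_cases hn : n ≤ 1
  · have h1 : E.card + Eᶜ.card = n * n := by
      rw [Finset.card_add_card_compl, Fintype.card_prod, Fintype.card_fin]
    have h2 : E.card = 0 ∨ Eᶜ.card = 0 := by
      have : n * n ≤ 1 := Nat.mul_le_mul hn hn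
      omega
    rcases h2 with h2 | h2
    · rw [h2, zero_mul]
      exact Nat.zero_le _
    · rw [h2, mul_zero]
      exact Nat.zero_le _
  push Not at hn
  let o : Fin n := ⟨0, by omega⟩
  obtain ⟨π, hπ⟩ := exists_perm_Qset (N := Fin n) (by rw [Fintype.card_fin]; omega) E o
  rw [Fintype.card_fin] at hπ
  let cl : Fin n × Fin n → Bool := fun p => decide ((π p.1, p.2) ∈ E)
  let τ : Bool → ℕ := fun b => bif b then t₁ else t₂
  let P : ∀ b, Matrix (Fin s) (Fin (τ b)) K := fun b => match b with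
    | true => P₁
    | false => P₂
  have hc₁ : ∀ p : {p // p ∈ E}, cl (π.symm p.1.1, p.1.2) = true := by
    intro p
    simp only [cl, Equiv.apply_symm_apply, decide_eq_true_eq]
    exact p.2
  have hc₂ : ∀ p : {p // p ∉ E}, cl (π.symm p.1.1, p.1.2) = false := by
    intro p
    simp only [cl, Equiv.apply_symm_apply, decide_eq_false_iff_not]
    exact p.2
  let Q : ∀ b, ({p // cl p = b} → ℕ) → Matrix (Fin (τ b)) (Fin s) K := fun b => match b with
    | true => fun y => Q₁ (fun p => y ⟨(π.symm p.1.1, p.1.2), hc₁ p⟩)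
    | false => fun y => Q₂ (fun p => y ⟨(π.symm p.1.1, p.1.2), hc₂ p⟩)
  let g : (∀ b, {p // cl p = b} → ℕ) → K := fun x =>
    permMl (Fin n) K (fun i a => (x (cl (i, a)) ⟨(i, a), rfl⟩ : K))
  have hg : ∀ x, (C + ∑ b, P b * Q b (x b)).det = g x := by
    intro x
    let X : Matrix (Fin n) (Fin n) ℕ := fun i a => x (cl (π.symm i, a)) ⟨(π.symm i, a), rfl⟩
    have hx : ∀ (b : Bool) (q : Fin n × Fin n) (hq : cl q = b), x (cl q) ⟨q, rfl⟩ = x b ⟨q, hq⟩ := by
      rintro b q rfl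
      rfl
    have h1 := h X
    have h2 : (fun p : {p // p ∈ E} => X p.1.1 p.1.2) =
        fun p => x true ⟨(π.symm p.1.1, p.1.2), hc₁ p⟩ := by
      funext p
      exact hx true _ (hc₁ p)
    have h3 : (fun p : {p // p ∉ E} => X p.1.1 p.1.2) =
        fun p => x false ⟨(π.symm p.1.1, p.1.2), hc₂ p⟩ := by
      funext p
      exact hx false _ (hc₂ p)
    rw [h2, h3] at h1
    rw [Fintype.sum_bool, ← add_assoc]
    refine h1.trans ?_
    rw [natCast_permanent, permMl_apply, ← Equiv.sum_comp (Equiv.mulRight π⁻¹)]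
    simp only [g]
    rw [permMl_apply]
    refine Finset.sum_congr rfl fun σ _ => ?_
    rw [← Equiv.prod_comp π]
    refine Finset.prod_congr rfl fun i _ => ?_
    have h4 : (Equiv.mulRight π⁻¹ σ) (π i) = σ i := by
      simp
    rw [h4]
    simp only [X]
    have h5 : ∀ (j : Fin n) (hj : j = i), ((x (cl (j, σ i)) ⟨(j, σ i), rfl⟩ : ℕ) : K) =
        ((x (cl (i, σ i)) ⟨(i, σ i), rfl⟩ : ℕ) : K) := by
      rintro j rfl
      rfl
    exact h5 _ (π.symm_apply_apply i)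
  obtain ⟨A, hA⟩ := gadget_reduction C P Q g hg (fun b p => if p.1.1 = p.1.2 then 1 else 0) (by
    simp only [g]
    have h1 := permMl_permMatrix (N := Fin n) (R := K) 1
    rw [← h1]
    congr 1
    funext i a
    simp)
  have hfr := frame (K := K) (N := Fin n) o cl true false (by decide) A hA (Qset E o π) (by
    intro p hp
    simp only [Qset, Finset.mem_filter, Finset.mem_univ, true_and] at hp
    obtain ⟨h1, h2, h3, h4, h5⟩ := hp
    refine ⟨h1, h2, h3, ?_, ?_⟩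
    · simpa [cl] using h4
    · simpa [cl] using h5)
  rw [Fintype.card_fin, Fintype.card_fin, Fintype.card_fin] at hfr
  have h6 : (Qset E o π).card ≤ t₁ + t₂ + 2 * n := hfr
  calc E.card * Eᶜ.card ≤ n ^ 2 * (Qset E o π).card + 2 * n ^ 3 := hπ
    _ ≤ n ^ 2 * (t₁ + t₂ + 2 * n) + 2 * n ^ 3 := Nat.add_le_add_right (Nat.mul_le_mul_left _ h6) _
    _ = n ^ 2 * (t₁ + t₂ + 4 * n) := by ring

end Pool.Agent.Helper20.MR
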