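import Mathlib
import Pool.Agent.Helper20.MR.Final

/-!
# A nonlinear Mignon-Ressayre bound for arbitrary splittings of the variables

Mignon and Ressayre proved that the permanent of an `n x n` matrix `X` is not the determinant of a
matrix of size less than `n ^ 2 / 2` with affine linear entries.  Here the entries may be arbitrary
functions: the positions of `X` are divided into a set `E` and its complement, and `X` enters the
determinant through an arbitrary function `Q₁` of the entries in `E` and an arbitrary function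
`Q₂` of the other entries.  If `X ↦ C + P₁ * Q₁ + P₂ * Q₂` with constant matrices `C`, `P₁`, `P₂`
(of any size) represents the permanent of all nonnegative integer matrices, then
`t₁ + t₂ ≥ |E| (n ^ 2 - |E|) / n ^ 2 - 4 n`, where `t₁` and `t₂` are the numbers of columns of `P₁`
and `P₂`.
-/

namespace Pool.Agent.Helper20.MR.Nonlinear

/-- The permanent of nonnegative integer matrices is not a determinant into which the entries in
`E` and the entries outside of `E` enter with inner dimensions `t₁` and `t₂`, unless
`|E| (n ^ 2 - |E|) ≤ n ^ 2 (t₁ + t₂ + 4 n)`. -/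
theorem result {K : Type*} [Field K] [CharZero K] (n s t₁ t₂ : ℕ)
    (E : Finset (Fin n × Fin n)) (C : Matrix (Fin s) (Fin s) K)
    (P₁ : Matrix (Fin s) (Fin t₁) K) (P₂ : Matrix (Fin s) (Fin t₂) K)
    (Q₁ : ({p // p ∈ E} → ℕ) → Matrix (Fin t₁) (Fin s) K)
    (Q₂ : ({p // p ∉ E} → ℕ) → Matrix (Fin t₂) (Fin s) K)
    (h : ∀ X : Matrix (Fin n) (Fin n) ℕ,
      (C + P₁ * Q₁ (fun p => X p.1.1 p.1.2) + P₂ * Q₂ (fun p => X p.1.1 p.1.2)).det =
        (X.permanent : K)) :
    E.card * (n ^ 2 - E.card) ≤ n ^ 2 * (t₁ + t₂ + 4 * n) :=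
  Pool.Agent.Helper20.MR.two_blocks n s t₁ t₂ E C P₁ P₂ Q₁ Q₂ h

end Pool.Agent.Helper20.MR.Nonlinear
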